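import Pool.Agent.Helper30.Lo.Conv
import Pool.Graph.R_pool_sql_team_seeded_843ab51a.Results.MP_850839_an.LossRemoval
import Pool.Graph.R_pool_sql_team_seeded_5cf16337.Results.MP_850839_an.HybridAllDimensions

set_option autoImplicit false

/-!
# MP_850839: families with orientations of dimension `k` inherit the exponents of dimension `k + 1`

Let `1 ≤ k ≤ n - 2`.  We compare the inequality of the problem in `ℝ^(k+1)`, for all families of
tubes, with inequalities in `ℝ^n` for families whose orientations form a set of dimension about `k`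
(at all the scales `ρ ≥ δ`), for instance for orientations near a smooth `k`-dimensional
submanifold of the sphere, or near any set of directions of upper Minkowski type dimension `k`,
possibly purely unrectifiable; the positions of the tubes are arbitrary.

1. Let `q > 1`.  If the inequality of the problem holds in `ℝ^(k+1)` at the exponent `q`, then ALL
   families of `N` tubes with `δ`-separated orientations in `ℝ^n` satisfy
   `‖∑ 1_T‖_q ≤ C (1 + P)^(1/(q k)) δ^((n-1)/q) N^(1 - 1/(q k))`, where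
   `P = max_i ∑_{j ≠ i} (δ / |e_i - e_j|)^k` is the maximal `k`-dimensional potential of the
   orientations.
2. For every `q > 1` the inequality in `ℝ^(k+1)` with losses `δ^(-ε)` is equivalent to the
   inequality `‖∑ 1_T‖_q ≤ C δ^(-ε) δ^((n-1)/q) N^(1 - 1/(q k))` for all families in `ℝ^n` with
   orientations of dimension at most `k`.
3. If the inequality of the problem holds in `ℝ^(k+1)` for all `Q > 1 + c / k`, then the inequality
   of the problem itself, without any loss, holds in `ℝ^n` for all `q > 1 + c / (n - 1)` for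
   families with orientations of dimension at most `k`; in particular (`c = 1`) the Kakeya
   conjecture in `ℝ^(k+1)` implies the full range `q > n / (n - 1)` for these families, in every
   `ℝ^n`.  More generally it holds for all `q > 1 + c / ((1 - γ) (n - 1))` if
   `1 + P ≤ A N^γ`, `γ ≤ 1 - k / (n - 1)`.
4. This applies unconditionally with the slopes `c` known in `ℝ^(k+1)`.

The proof: a random shear followed by a projection maps the tubes to tubes of `ℝ^(k+1)`, and the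
expected number of pairs of tubes whose directions become `δ`-close is at most `C P N`.
-/

open MeasureTheory Set Filter Topology ENNReal NNReal Metric

namespace Pool.Agent.Results.MP_850839_an.LowDimensionalOrientations

/-- The `δ`-tube with centre `a` and direction `e` (a unit vector): the closed cylinder of length
`1` and radius `δ` around the segment with centre `a` and direction `e`. -/
def tube {n : ℕ} (δ : ℝ) (a e : EuclideanSpace ℝ (Fin n)) : Set (EuclideanSpace ℝ (Fin n)) :=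
  {y | |inner ℝ (y - a) e| ≤ 1 / 2 ∧ ‖(y - a) - (inner ℝ (y - a) e) • e‖ ≤ δ}

/-- `δ`-separated unit vectors. -/
def Separated {n : ℕ} {ι : Type} (δ : ℝ) (e : ι → EuclideanSpace ℝ (Fin n)) : Prop :=
  (∀ i, ‖e i‖ = 1) ∧ ∀ i j, i ≠ j → δ ≤ ‖e i - e j‖

/-- The `L^q` norm of the number of the tubes through a point. -/
noncomputable def tubeNorm {n : ℕ} {ι : Type} [Fintype ι] (q δ : ℝ)
    (a e : ι → EuclideanSpace ℝ (Fin n)) : ℝ≥0∞ :=
  eLpNorm (fun x => ∑ i, (tube δ (a i) (e i)).indicator (fun _ => (1 : ℝ)) x)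
    (ENNReal.ofReal q) volume

/-- The inequality of the problem in `ℝ^n`, for the exponent `q` and for all families of tubes. -/
def Tubes (n : ℕ) (q : ℝ) : Prop :=
  ∃ C : ℝ, 0 < C ∧ ∀ δ : ℝ, 0 < δ → δ < 1 → ∀ (ι : Type) [Fintype ι]
    (a e : ι → EuclideanSpace ℝ (Fin n)), Separated δ e →
    tubeNorm q δ a e ≤ ENNReal.ofReal (C * δ ^ (((n : ℝ) - 1) / q) *
      (Fintype.card ι : ℝ) ^ (1 - 1 / (q * ((n : ℝ) - 1))))

/-- The same inequality with arbitrarily small losses `δ ^ (-ε)`. -/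
def TubesLoss (n : ℕ) (q : ℝ) : Prop :=
  ∀ ε : ℝ, 0 < ε → ∃ C : ℝ, 0 < C ∧ ∀ δ : ℝ, 0 < δ → δ < 1 → ∀ (ι : Type) [Fintype ι]
    (a e : ι → EuclideanSpace ℝ (Fin n)), Separated δ e →
    tubeNorm q δ a e ≤ ENNReal.ofReal (C * δ ^ (-ε) * δ ^ (((n : ℝ) - 1) / q) *
      (Fintype.card ι : ℝ) ^ (1 - 1 / (q * ((n : ℝ) - 1))))

/-- The `k`-dimensional potentials of the orientations, at the scale `δ`, are at most `P`. -/
def PotentialLE {n : ℕ} {ι : Type} [Fintype ι] (k : ℕ) (P δ : ℝ)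
    (e : ι → EuclideanSpace ℝ (Fin n)) : Prop :=
  ∀ i, ∑ᶠ j ∈ {j | j ≠ i}, (δ / ‖e i - e j‖) ^ k ≤ P

/-- The orientations have dimension at most `k` (with the constant `A`) at all the scales `≥ δ`: a
ball of radius `ρ ≥ δ` around one of them contains at most `A (ρ / δ) ^ k` of them. -/
def DimensionLE {n : ℕ} {ι : Type} (k : ℕ) (A δ : ℝ)
    (e : ι → EuclideanSpace ℝ (Fin n)) : Prop :=
  ∀ (i : ι) (ρ : ℝ), δ ≤ ρ → (Nat.card {j // ‖e j - e i‖ ≤ ρ} : ℝ) ≤ A * (ρ / δ) ^ k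

/-- The inequality for all families in `ℝ^n`, with the exponents of `ℝ^(k+1)` and a constant given by
the maximal `k`-dimensional potential of the orientations. -/
def AllFamilies (k n : ℕ) (q : ℝ) : Prop :=
  ∃ C : ℝ, 0 < C ∧ ∀ δ : ℝ, 0 < δ → δ < 1 → ∀ (ι : Type) [Fintype ι]
    (a e : ι → EuclideanSpace ℝ (Fin n)), Separated δ e → ∀ P : ℝ, 0 ≤ P → PotentialLE k P δ e →
    tubeNorm q δ a e ≤ ENNReal.ofReal (C * (1 + P) ^ (1 / (q * k)) * δ ^ (((n : ℝ) - 1) / q) *
      (Fintype.card ι : ℝ) ^ (1 - 1 / (q * k)))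

/-- The inequality, with the exponents of `ℝ^(k+1)` and small losses, for families in `ℝ^n` with
orientations of dimension at most `k`. -/
def LowDimensionLoss (k n : ℕ) (q : ℝ) : Prop :=
  ∀ ε : ℝ, 0 < ε → ∀ A : ℝ, 0 ≤ A → ∃ C : ℝ, 0 < C ∧ ∀ δ : ℝ, 0 < δ → δ < 1 →
    ∀ (ι : Type) [Fintype ι] (a e : ι → EuclideanSpace ℝ (Fin n)), Separated δ e →
    DimensionLE k A δ e →
    tubeNorm q δ a e ≤ ENNReal.ofReal (C * δ ^ (-ε) * δ ^ (((n : ℝ) - 1) / q) *
      (Fintype.card ι : ℝ) ^ (1 - 1 / (q * k)))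

/-- The inequality of the problem in `ℝ^n`, at the exponent `q`, for families with orientations of
dimension at most `k`, with a constant `C (1 + A)^(1 - 1/q)`. -/
def LowDimension (k n : ℕ) (q : ℝ) : Prop :=
  ∃ C : ℝ, 0 < C ∧ ∀ A : ℝ, 0 ≤ A → ∀ δ : ℝ, 0 < δ → δ < 1 →
    ∀ (ι : Type) [Fintype ι] (a e : ι → EuclideanSpace ℝ (Fin n)), Separated δ e →
    DimensionLE k A δ e →
    tubeNorm q δ a e ≤ ENNReal.ofReal (C * (1 + A) ^ (1 - 1 / q) * δ ^ (((n : ℝ) - 1) / q) *
      (Fintype.card ι : ℝ) ^ (1 - 1 / (q * ((n : ℝ) - 1))))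

/-- The inequality of the problem in `ℝ^n`, at the exponent `q`, for families such that `1 + P` is at
most `A` times the power `γ` of the number of the tubes, `P` the maximal `k`-dimensional
potential of the orientations. -/
def SmallPotential (k n : ℕ) (γ q : ℝ) : Prop :=
  ∃ C : ℝ, 0 < C ∧ ∀ δ : ℝ, 0 < δ → δ < 1 → ∀ (ι : Type) [Fintype ι]
    (a e : ι → EuclideanSpace ℝ (Fin n)), Separated δ e → ∀ P A : ℝ, 0 ≤ P → 0 < A →
    PotentialLE k P δ e → 1 + P ≤ A * (Fintype.card ι : ℝ) ^ γ →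
    tubeNorm q δ a e ≤ ENNReal.ofReal (C * A ^ (1 / (q * ((1 - γ) * ((n : ℝ) - 1)))) *
      δ ^ (((n : ℝ) - 1) / q) * (Fintype.card ι : ℝ) ^ (1 - 1 / (q * ((n : ℝ) - 1))))

/-- The exponents inherited in `ℝ^n` from a slope `c`. -/
def Inherited (k n : ℕ) (c : ℝ) : Prop :=
  (∀ q : ℝ, 1 + c / ((n : ℝ) - 1) < q → LowDimension k n q) ∧
  ∀ γ q : ℝ, γ ≤ 1 - k / ((n : ℝ) - 1) → 1 + c / ((1 - γ) * ((n : ℝ) - 1)) < q →
    SmallPotential k n γ q

/-- The slopes `c` for which the inequality of the problem is known in `ℝ^D` for all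
`Q > 1 + c / (D - 1)`. -/
def KnownSlope (D : ℕ) (c : ℝ) : Prop :=
  (3 ≤ D ∧ 2 * ((D : ℝ) - 1) / D ≤ c) ∨
  (10 ≤ D ∧ 1 < c ∧ 0 < ((D : ℝ) - 1) * (c ^ 3 - 4 * c + 2) + c * (3 * c - 1 - c ^ 2)) ∨
  (D = 8 ∧ 1.61037 < c) ∨ (D = 6 ∧ 1.58728 < c)

open Pool.Agent.Helper30.Lo Pool.Agent.Helper37.Kp Pool.Agent.K3h46.TMC Pool.Agent.H742R2.Kk

theorem norm_eq {n : ℕ} {q : ℝ} (hq0 : 0 < q) {ι : Type} [Fintype ι] (δ : ℝ)
    (a e : ι → EuclideanSpace ℝ (Fin n)) :
    tubeNorm q δ a e = (∫⁻ x, Fs δ (Icc (-(1 / 2)) (1 / 2)) e a x ^ q) ^ (1 / q) := by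
  unfold tubeNorm
  rw [eLpNorm_eq_lintegral_rpow_enorm_toReal (by
    rw [ne_eq, ENNReal.ofReal_eq_zero, not_le]; exact hq0) ENNReal.ofReal_ne_top,
    ENNReal.toReal_ofReal hq0.le]
  congr 1
  apply lintegral_congr
  intro x
  congr 1
  rw [Real.enorm_of_nonneg (Finset.sum_nonneg fun i _ =>
    Set.indicator_nonneg (fun _ _ => zero_le_one) _),
    ENNReal.ofReal_sum_of_nonneg fun i _ => Set.indicator_nonneg (fun _ _ => zero_le_one) _]
  unfold Fs
  refine Finset.sum_congr rfl fun i _ => ?_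
  by_cases hx : x ∈ tube δ (a i) (e i)
  · have hx' : x ∈ cyl δ (Icc (-(1 / 2)) (1 / 2)) (e i) (a i) := ⟨abs_le.1 hx.1, hx.2⟩
    rw [Set.indicator_of_mem hx, Set.indicator_of_mem hx', ENNReal.ofReal_one]
  · have hx' : x ∉ cyl δ (Icc (-(1 / 2)) (1 / 2)) (e i) (a i) :=
      fun h => hx ⟨abs_le.2 h.1, h.2⟩
    rw [Set.indicator_of_notMem hx, Set.indicator_of_notMem hx', ENNReal.ofReal_zero]

theorem norm_empty {n : ℕ} {q : ℝ} {ι : Type} [Fintype ι] [IsEmpty ι] (δ : ℝ)
    (a e : ι → EuclideanSpace ℝ (Fin n)) : tubeNorm q δ a e = 0 := by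
  unfold tubeNorm
  have h0 : (fun x : EuclideanSpace ℝ (Fin n) =>
      ∑ i, (tube δ (a i) (e i)).indicator (fun _ => (1 : ℝ)) x) = fun _ => 0 := by
    funext x
    simp
  rw [h0]
  simp

theorem pow_of_norm {k : ℕ} (hk : 1 ≤ k) {Q C X N : ℝ} (hQ : 0 < Q) (hC : 0 ≤ C) (hX : 0 ≤ X)
    {δ : ℝ} (hδ : 0 < δ) (hN : 0 ≤ N) :
    (C * X * δ ^ ((k : ℝ) / Q) * N ^ (1 - 1 / (Q * (k : ℝ)))) ^ Q =
      C ^ Q * X ^ Q * (δ ^ k * N ^ (Q - 1 / (k : ℝ))) := by
  have hk0 : (0:ℝ) < k := by exact_mod_cast hk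
  rw [Real.mul_rpow (by positivity) (by positivity), Real.mul_rpow (by positivity) (by positivity),
    Real.mul_rpow hC hX, ← Real.rpow_mul hδ.le, ← Real.rpow_mul hN, div_mul_cancel₀ _ hQ.ne',
    Real.rpow_natCast]
  have e1 : (1 - 1 / (Q * (k : ℝ))) * Q = Q - 1 / k := by field_simp
  rw [e1]
  ring

theorem LL_of_tubes {k : ℕ} (hk : 1 ≤ k) {Q : ℝ} (hQ : 0 < Q) (h : Tubes (k + 1) Q) : LL k Q := by
  obtain ⟨C, hC, h⟩ := h
  refine ⟨C ^ Q, by positivity, ?_⟩
  intro δ hδ hδ1 ι _ e a he hsep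
  have h1 := h δ hδ hδ1 ι a e ⟨he, hsep⟩
  rw [norm_eq hQ] at h1
  have h2 := ENNReal.rpow_le_rpow h1 hQ.le
  have e1 : (((k + 1 : ℕ) : ℝ) - 1) = k := by push_cast; ring
  rw [← ENNReal.rpow_mul, one_div_mul_cancel hQ.ne', ENNReal.rpow_one,
    ENNReal.ofReal_rpow_of_nonneg (by positivity) hQ.le, e1] at h2
  refine h2.trans (le_of_eq ?_)
  congr 1
  have h3 := pow_of_norm hk hQ hC.le zero_le_one hδ (N := (Fintype.card ι : ℝ)) (Nat.cast_nonneg _)
  rw [mul_one, Real.one_rpow, mul_one] at h3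
  exact h3

theorem LW_of_loss {k : ℕ} (hk : 1 ≤ k) {Q : ℝ} (hQ : 0 < Q) (h : TubesLoss (k + 1) Q) :
    ∀ ε : ℝ, 0 < ε → LW k Q ε := by
  intro ε hε
  obtain ⟨C, hC, h⟩ := h (ε / Q) (by positivity)
  refine ⟨C ^ Q, by positivity, ?_⟩
  intro δ hδ hδ1 ι _ e a he hsep
  have h1 := h δ hδ hδ1 ι a e ⟨he, hsep⟩
  rw [norm_eq hQ] at h1
  have h2 := ENNReal.rpow_le_rpow h1 hQ.le
  have e1 : (((k + 1 : ℕ) : ℝ) - 1) = k := by push_cast; ring
  rw [← ENNReal.rpow_mul, one_div_mul_cancel hQ.ne', ENNReal.rpow_one,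
    ENNReal.ofReal_rpow_of_nonneg (by positivity) hQ.le, e1] at h2
  refine (lintegral_mono (fun y => ENNReal.rpow_le_rpow
    (Fs_mono (by linarith : δ / 2 ≤ δ) subset_rfl e a y) hQ.le)).trans (h2.trans (le_of_eq ?_))
  congr 1
  rw [pow_of_norm hk hQ hC.le (by positivity) hδ (Nat.cast_nonneg _), ← Real.rpow_mul hδ.le]
  congr 3
  field_simp

theorem loss_of_LW {k : ℕ} (hk : 1 ≤ k) {Q : ℝ} (hQ : 1 < Q) (h : ∀ ε : ℝ, 0 < ε → LW k Q ε) :
    TubesLoss (k + 1) Q := by
  intro ε hε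
  have hQ0 : 0 < Q := by linarith
  obtain ⟨C, hC, h⟩ := model hk hQ (ε := Q * ε) (by positivity) (h (Q * ε) (by positivity))
    (K := 1) (L := 1 / 2) (c := 1) one_pos (by norm_num) one_pos le_rfl
  refine ⟨C ^ (1 / Q), by positivity, ?_⟩
  intro δ hδ hδ1 ι _ a e hsep
  rcases isEmpty_or_nonempty ι with hι | hι
  · rw [norm_empty]
    exact zero_le
  have h1 := h δ hδ hδ1 ι e a hsep.1 (by
    intro i j hij
    rw [one_mul]
    exact hsep.2 i j hij)
  rw [one_mul] at h1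
  rw [norm_eq hQ0]
  refine (ENNReal.rpow_le_rpow h1 (by positivity)).trans (le_of_eq ?_)
  have e1 : (((k + 1 : ℕ) : ℝ) - 1) = k := by push_cast; ring
  rw [e1, ENNReal.ofReal_rpow_of_nonneg (by positivity) (by positivity)]
  congr 1
  have h3 := pow_of_norm hk hQ0 (show 0 ≤ C ^ (1 / Q) by positivity)
    (show 0 ≤ δ ^ (-ε) by positivity) hδ (N := (Fintype.card ι : ℝ)) (Nat.cast_nonneg _)
  have h4 : (C ^ (1 / Q)) ^ Q = C := by
    rw [← Real.rpow_mul hC.le, one_div_mul_cancel hQ0.ne', Real.rpow_one]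
  have h5 : (δ ^ (-ε)) ^ Q = δ ^ (-(Q * ε)) := by
    rw [← Real.rpow_mul hδ.le]; congr 1; ring
  rw [h4, h5] at h3
  rw [← h3, ← Real.rpow_mul (by positivity), mul_one_div_cancel hQ0.ne', Real.rpow_one]

theorem pot_iff {n : ℕ} {ι : Type} [Fintype ι] [DecidableEq ι] {k : ℕ} {P δ : ℝ}
    {e : ι → EuclideanSpace ℝ (Fin n)} : PotentialLE k P δ e ↔
      ∀ i, ∑ j ∈ Finset.univ.filter (fun j => j ≠ i), (δ / ‖e i - e j‖) ^ k ≤ P := by
  unfold PotentialLE
  refine forall_congr' fun i => ?_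
  have h1 : ∑ᶠ j ∈ {j | j ≠ i}, (δ / ‖e i - e j‖) ^ k
      = ∑ j ∈ Finset.univ.filter (fun j => j ≠ i), (δ / ‖e i - e j‖) ^ k := by
    rw [← finsum_mem_finset_eq_sum]
    simp
  rw [h1]

theorem known {D : ℕ} {c : ℝ} (h : KnownSlope D c) :
    3 ≤ D ∧ 1 ≤ c ∧ ∀ Q : ℝ, 1 + c / ((D : ℝ) - 1) < Q → Tubes D Q := by
  rcases h with ⟨hD, hc⟩ | h
  · have hD3 : (3:ℝ) ≤ D := by exact_mod_cast hD
    have hD0 : (0:ℝ) < D := by linarith
    have hD1 : (0:ℝ) < (D:ℝ) - 1 := by linarith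
    have hc1 : 1 ≤ c := by
      refine le_trans ?_ hc
      rw [le_div_iff₀ hD0]
      linarith
    refine ⟨hD, hc1, ?_⟩
    intro Q hQ
    obtain ⟨C, hC, h⟩ := (Pool.Agent.Results.MP_850839_an.LossRemoval.result D hD).2.2.2 Q
      (lt_of_le_of_lt (by
        have h1 : 2 / (D:ℝ) ≤ c / ((D:ℝ) - 1) := by
          rw [le_div_iff₀ hD1]
          refine le_trans (le_of_eq ?_) hc
          ring
        have h2 : ((D:ℝ) + 2) / D = 1 + 2 / D := by field_simp
        rw [h2]
        linarith) hQ)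
    exact ⟨C, hC, fun δ hδ hδ1 ι _ a e he => h δ hδ hδ1 ι a e he.1 he.2⟩
  · have hS : Pool.Agent.Results.MP_850839_an.HybridAllDimensions.Slope D c := by
      rcases h with h | h | h
      · exact Or.inl h
      · exact Or.inr (Or.inl h)
      · exact Or.inr (Or.inr h)
    have hD : 3 ≤ D := by
      rcases h with h | h | h
      · exact le_trans (by norm_num) h.1
      · omega
      · omega
    have hc1 : 1 ≤ c := by
      rcases h with h | h | h
      · exact h.2.1.le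
      · have := h.2
        norm_num at this
        linarith
      · have := h.2
        norm_num at this
        linarith
    refine ⟨hD, hc1, ?_⟩
    intro Q hQ
    obtain ⟨C, hC, h⟩ := Pool.Agent.Results.MP_850839_an.HybridAllDimensions.result D c Q hS hQ.le
    exact ⟨C, hC, fun δ hδ hδ1 ι _ a e he => h δ hδ hδ1 ι a e he.1 he.2⟩

theorem inherited {k n : ℕ} (hk : 1 ≤ k) (hn : k + 2 ≤ n) {c : ℝ} (hc : 1 ≤ c)
    (hT : ∀ Q : ℝ, 1 + c / k < Q → Tubes (k + 1) Q) : Inherited k n c := by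
  obtain ⟨m, rfl⟩ : ∃ m, n = k + m + 1 := ⟨n - k - 1, by omega⟩
  have hm : 1 ≤ m := by omega
  have hk0 : (0:ℝ) < k := by exact_mod_cast hk
  have hd0 : (0:ℝ) < ((k + m : ℕ) : ℝ) := by push_cast; positivity
  have e1 : (((k + m + 1 : ℕ) : ℝ) - 1) = ((k + m : ℕ) : ℝ) := by push_cast; ring
  have hL : ∀ Q : ℝ, 1 + c / k < Q → LL k Q := fun Q hQ => LL_of_tubes hk (by
    have : 0 < c / k := by positivity
    linarith) (hT Q hQ)
  unfold Inherited
  rw [e1]
  constructor
  · intro q hq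
    have hq0 : 0 < q := by
      have : 0 < c / ((k + m : ℕ) : ℝ) := by positivity
      linarith
    obtain ⟨C, hC, h⟩ := dim_le hk hm hc hL hq
    refine ⟨C, hC, ?_⟩
    intro A hA δ hδ hδ1 ι _ a e hsep hdim
    rcases isEmpty_or_nonempty ι with hι | hι
    · rw [norm_empty]
      exact zero_le
    rw [e1, norm_eq hq0]
    exact h A hA δ hδ hδ1 ι e a hsep.1 hsep.2 hdim
  · intro γ q hγ hq
    have hγ' : γ ≤ m / ((k + m : ℕ) : ℝ) := by
      refine hγ.trans (le_of_eq ?_)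
      rw [eq_div_iff hd0.ne', sub_mul, div_mul_cancel₀ _ hd0.ne']
      push_cast
      ring
    have h1γ : 0 < (1 - γ) * ((k + m : ℕ) : ℝ) := by
      have h2 : (k:ℝ) / ((k + m : ℕ) : ℝ) ≤ 1 - γ := by linarith
      rw [div_le_iff₀ hd0] at h2
      linarith
    have hq0 : 0 < q := by
      have : 0 < c / ((1 - γ) * ((k + m : ℕ) : ℝ)) := by positivity
      linarith
    obtain ⟨C, hC, h⟩ := interp_all (m := m) hk (by linarith) hL hγ' hq
    refine ⟨C, hC, ?_⟩
    intro δ hδ hδ1 ι _ a e hsep P A hP hA hPot hPA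
    classical
    rcases isEmpty_or_nonempty ι with hι | hι
    · rw [norm_empty]
      exact zero_le
    rw [e1, norm_eq hq0]
    exact h δ hδ hδ1 ι e a hsep.1 (fun i j hij h0 => by
      have := hsep.2 i j hij
      rw [h0, sub_self, norm_zero] at this
      linarith) P A hP hA (pot_iff.1 hPot) hPA

/-- **Families with orientations of dimension `k` inherit the exponents of dimension `k + 1`.**
Let `1 ≤ k ≤ n - 2`.

(1) If the inequality of the problem holds in `ℝ^(k+1)` at `q > 1`, then all families in `ℝ^n`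
satisfy the inequality with the exponents of `ℝ^(k+1)` and with the constant
`C (1 + P)^(1/(q k))`, `P` the maximal `k`-dimensional potential of the orientations.

(2) For every `q > 1`, the inequality in `ℝ^(k+1)` with small losses is equivalent to the inequality
with the same exponents and small losses for the families in `ℝ^n` with orientations of
dimension at most `k`.

(3) If the inequality of the problem holds in `ℝ^(k+1)` for all `Q > 1 + c / k`, then in `ℝ^n` the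
inequality of the problem holds without loss for all `q > 1 + c / (n - 1)` for families with
orientations of dimension at most `k`, and for all `q > 1 + c / ((1 - γ) (n - 1))` for families
with `1 + P ≤ A (#T)^γ`.

(4) Unconditionally, the conclusions of (3) hold for all the slopes `c` known in `ℝ^(k+1)`. -/
theorem result (k n : ℕ) (hk : 1 ≤ k) (hn : k + 2 ≤ n) :
    (∀ q : ℝ, 1 < q → Tubes (k + 1) q → AllFamilies k n q) ∧
    (∀ q : ℝ, 1 < q → (TubesLoss (k + 1) q ↔ LowDimensionLoss k n q)) ∧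
    (∀ c : ℝ, 1 ≤ c → (∀ Q : ℝ, 1 + c / k < Q → Tubes (k + 1) Q) → Inherited k n c) ∧
    (∀ c : ℝ, KnownSlope (k + 1) c → Inherited k n c) := by
  refine ⟨?_, ?_, fun c hc hT => inherited hk hn hc hT, ?_⟩
  · obtain ⟨m, rfl⟩ : ∃ m, n = k + m + 1 := ⟨n - k - 1, by omega⟩
    have e1 : (((k + m + 1 : ℕ) : ℝ) - 1) = ((k + m : ℕ) : ℝ) := by push_cast; ring
    intro q hq hT
    have hq0 : 0 < q := by linarith
    obtain ⟨C, hC, h⟩ := all_families (m := m) (ε := 0) hk hq le_rfl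
      (lw_of_ll hq0 (LL_of_tubes hk hq0 hT))
    refine ⟨C, hC, ?_⟩
    intro δ hδ hδ1 ι _ a e hsep P hP hPot
    classical
    rw [norm_eq hq0]
    refine (h δ hδ hδ1 ι e a hsep.1 (fun i j hij h0 => by
      have := hsep.2 i j hij
      rw [h0, sub_self, norm_zero] at this
      linarith) P hP (pot_iff.1 hPot)).trans (le_of_eq ?_)
    congr 1
    rw [neg_zero, Real.rpow_zero, one_mul, e1, ← Real.rpow_natCast δ, ← Real.rpow_mul hδ.le]
    have e2 : ((k + m : ℕ) : ℝ) * (1 / q) = ((k + m : ℕ) : ℝ) / q := by ring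
    rw [e2]
    ring
  · obtain ⟨m, rfl⟩ : ∃ m, n = k + m + 1 := ⟨n - k - 1, by omega⟩
    have e1 : (((k + m + 1 : ℕ) : ℝ) - 1) = ((k + m : ℕ) : ℝ) := by push_cast; ring
    intro q hq
    have hq0 : 0 < q := by linarith
    constructor
    · intro hT ε hε A hA
      obtain ⟨C, hC, h⟩ := loss_le (m := m) hk hq (LW_of_loss hk hq0 hT) ε hε A hA
      refine ⟨C, hC, ?_⟩
      intro δ hδ hδ1 ι _ a e hsep hdim
      rcases isEmpty_or_nonempty ι with hι | hι
      · rw [norm_empty]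
        exact zero_le
      rw [norm_eq hq0, e1]
      exact h δ hδ hδ1 ι e a hsep.1 hsep.2 hdim
    · intro h
      refine loss_of_LW hk hq (lw_of_sl (m := m) hk hq ?_)
      intro ε hε A hA
      obtain ⟨C, hC, h⟩ := h ε hε A hA
      refine ⟨C, hC, ?_⟩
      intro δ hδ hδ1 ι _ _ e a he hsep hdim
      have h1 := h δ hδ hδ1 ι a e ⟨he, hsep⟩ hdim
      rw [norm_eq hq0, e1] at h1
      exact h1
  · intro c hc
    obtain ⟨h1, h2, h3⟩ := known hc
    have e1 : (((k + 1 : ℕ) : ℝ) - 1) = k := by push_cast; ring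
    rw [e1] at h3
    exact inherited hk hn h2 h3

end Pool.Agent.Results.MP_850839_an.LowDimensionalOrientations
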