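import Pool.Agent.Helper37.Kq.Main

set_option autoImplicit false

/-!
# MP_850839: the Kakeya inequality and the growth of the constants of polynomial families of lines

Consider the families of tubes whose centres are `P(e)`, `e` the orientation, for a polynomial map
`P` of degree at most `k`.  We prove that the question of the problem in `ℝ^n` has a positive answer
if and only if the inequality holds for these families, for all `q > n / (n - 1)`, with constants
which grow more slowly than every power of the degree `k`; and then the constants are bounded.  It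
makes no difference how small the coefficients of the polynomials of degree `k` are required to be.
At every exponent `q₀ ≥ n / (n - 1)`, subpolynomial growth implies the inequality for all tubes and
all `q > q₀`.  (For fixed `k`, in affine coordinates for the direction, the inequality is a theorem
of the starting library, with a constant depending on `k`.)

Moreover, at every exponent, the inequality for all tubes is equivalent to the inequality for tubes
whose centres are a real analytic function of the orientation with derivatives up to order `K` at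
most `A`, for arbitrary `K` and `A > 0`.
-/

open MeasureTheory Set Filter Topology ENNReal NNReal Metric

namespace Pool.Agent.Results.MP_850839_an.PolynomialDegreeGrowth

/-- The `δ`-tube with centre `a` and direction `e` (a unit vector): the closed cylinder of length
`1` and radius `δ` around the segment with centre `a` and direction `e`. -/
def tube {n : ℕ} (δ : ℝ) (a e : EuclideanSpace ℝ (Fin n)) : Set (EuclideanSpace ℝ (Fin n)) :=
  {y | |inner ℝ (y - a) e| ≤ 1 / 2 ∧ ‖(y - a) - (inner ℝ (y - a) e) • e‖ ≤ δ}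

/-- The inequality of the problem in `ℝ^n`, for the exponent `q`, the tubes `tube δ (a i) (e i)` and
the constant `C`. -/
def Ineq {n : ℕ} (q C δ : ℝ) {ι : Type} [Fintype ι] (a e : ι → EuclideanSpace ℝ (Fin n)) : Prop :=
  eLpNorm (fun x => ∑ i, (tube δ (a i) (e i)).indicator (fun _ => (1 : ℝ)) x)
      (ENNReal.ofReal q) volume ≤
    ENNReal.ofReal (C * δ ^ (((n : ℝ) - 1) / q) *
      (Fintype.card ι : ℝ) ^ (1 - 1 / (q * ((n : ℝ) - 1))))

/-- The vectors `e i` are `δ`-separated unit vectors. -/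
def Separated {n : ℕ} (δ : ℝ) {ι : Type} (e : ι → EuclideanSpace ℝ (Fin n)) : Prop :=
  (∀ i, ‖e i‖ = 1) ∧ ∀ i j, i ≠ j → δ ≤ ‖e i - e j‖

/-- The inequality of the problem in `ℝ^n`, for the exponent `q` and for all families of tubes. -/
def Tubes (n : ℕ) (q : ℝ) : Prop :=
  ∃ C : ℝ, 0 < C ∧ ∀ δ : ℝ, 0 < δ → δ < 1 → ∀ (ι : Type) [Fintype ι]
    (a e : ι → EuclideanSpace ℝ (Fin n)), Separated δ e → Ineq q C δ a e

/-- The polynomial map with components `P j`. -/
noncomputable def pmap {n : ℕ} (P : Fin n → MvPolynomial (Fin n) ℝ)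
    (x : EuclideanSpace ℝ (Fin n)) : EuclideanSpace ℝ (Fin n) :=
  WithLp.toLp 2 (fun j => MvPolynomial.eval (fun l => x l) (P j))

/-- The inequality of the problem with the constant `C`, for the families of tubes with centres
`P (e i)`, where `P` is a polynomial map of degree at most `k` with coefficients of absolute value
at most `A`. -/
def PolyTubes (n : ℕ) (q : ℝ) (k : ℕ) (A C : ℝ) : Prop :=
  ∀ δ : ℝ, 0 < δ → δ < 1 → ∀ P : Fin n → MvPolynomial (Fin n) ℝ,
    (∀ j, (P j).totalDegree ≤ k) → (∀ j s, |(P j).coeff s| ≤ A) →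
    ∀ (ι : Type) [Fintype ι] (e : ι → EuclideanSpace ℝ (Fin n)), Separated δ e →
      Ineq q C δ (fun i => pmap P (e i)) e

/-- The inequality of the problem with the constant `C`, for the families of tubes with centres
`b (e i)`, where `b` is real analytic with derivatives of order at most `K` bounded by `A` on the
ball of radius `2`. -/
def AnalyticTubes (n : ℕ) (q : ℝ) (K : ℕ) (A C : ℝ) : Prop :=
  ∀ δ : ℝ, 0 < δ → δ < 1 → ∀ b : EuclideanSpace ℝ (Fin n) → EuclideanSpace ℝ (Fin n),
    AnalyticOnNhd ℝ b univ → (∀ j ≤ K, ∀ x, ‖x‖ ≤ 2 → ‖iteratedFDeriv ℝ j b x‖ ≤ A) →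
    ∀ (ι : Type) [Fintype ι] (e : ι → EuclideanSpace ℝ (Fin n)), Separated δ e →
      Ineq q C δ (fun i => b (e i)) e

open Pool.Agent.Helper37.Kq Pool.Agent.K3h46.TMC Pool.Agent.H742R2.Kk

theorem norm_eq {n : ℕ} {q : ℝ} (hq0 : 0 < q) {ι : Type} [Fintype ι] (δ : ℝ)
    (a e : ι → EuclideanSpace ℝ (Fin n)) :
    eLpNorm (fun x => ∑ i, (tube δ (a i) (e i)).indicator (fun _ => (1 : ℝ)) x)
        (ENNReal.ofReal q) volume =
      (∫⁻ x, Fs δ I2 e a x ^ q) ^ (1 / q) := by
  rw [eLpNorm_eq_lintegral_rpow_enorm_toReal (by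
    rw [ne_eq, ENNReal.ofReal_eq_zero, not_le]; exact hq0) ENNReal.ofReal_ne_top,
    ENNReal.toReal_ofReal hq0.le]
  congr 1
  apply lintegral_congr
  intro x
  congr 1
  rw [Real.enorm_of_nonneg (Finset.sum_nonneg fun i _ =>
    Set.indicator_nonneg (fun _ _ => zero_le_one) _),
    ENNReal.ofReal_sum_of_nonneg fun i _ => Set.indicator_nonneg (fun _ _ => zero_le_one) _]
  unfold Fs
  refine Finset.sum_congr rfl fun i _ => ?_
  by_cases hx : x ∈ tube δ (a i) (e i)
  · have hx' : x ∈ cyl δ I2 (e i) (a i) := ⟨abs_le.1 hx.1, hx.2⟩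
    rw [Set.indicator_of_mem hx, Set.indicator_of_mem hx', ENNReal.ofReal_one]
  · have hx' : x ∉ cyl δ I2 (e i) (a i) :=
      fun h => hx ⟨abs_le.2 h.1, h.2⟩
    rw [Set.indicator_of_notMem hx, Set.indicator_of_notMem hx', ENNReal.ofReal_zero]

/-- Subpolynomial growth of the constants implies the inequality for all tubes. -/
theorem main_step {d : ℕ} (hd : 2 ≤ d) {A : ℕ → ℝ} (hA : ∀ k, 0 < A k) {q₀ q : ℝ}
    (hq₀ : 1 + 1 / (d : ℝ) ≤ q₀) (hq : q₀ < q)
    (h : ∀ ε : ℝ, 0 < ε → ∃ C : ℝ, 0 < C ∧ ∀ k : ℕ, 1 ≤ k →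
      PolyTubes (d + 1) q₀ k (A k) (C * (k : ℝ) ^ ε)) : Tubes (d + 1) q := by
  have hd1 : 1 ≤ d := by omega
  have hd0 : (0:ℝ) < d := by
    have : 0 < d := by omega
    exact_mod_cast this
  have hdi : 0 < 1 / (d:ℝ) := by positivity
  have hq00 : 0 < q₀ := by linarith
  have hR : 0 < Real.sqrt ((d + 1 : ℕ) : ℝ) * 2 := by positivity
  obtain ⟨K, D, hK, happ⟩ := approx d hR
  obtain ⟨Kb, hKb, hbun⟩ := bundle d hd1 hq00
  have hE : ∀ ε : ℝ, 0 < ε → ∃ C : ℝ, 0 ≤ C ∧ Pool.Agent.Y254.EL.EuL d q₀ ε C := by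
    intro ε hε
    obtain ⟨C, hC, hCk⟩ := h (ε / (q₀ * (D + 1))) (by positivity)
    set ε' : ℝ := ε / (q₀ * (D + 1)) with hε'
    have hε'0 : 0 < ε' := by positivity
    refine ⟨(2 * 3 ^ (d + 1)) ^ q₀ * (Kb * (C * K ^ ε') ^ q₀), by positivity, ?_⟩
    intro ρ hρ hρ1 ι _ a e he hsep
    have hloc := localise (C := Kb * (C * K ^ ε') ^ q₀ * ρ ^ (-ε)) hd1 hq₀ (by positivity) hρ hρ1
      (fun ι _ a e he hsep ha => by
        obtain ⟨k, P, hk1, hkK, hdeg, hP⟩ := happ ρ hρ hρ1.le ι a e he ha hsep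
        obtain ⟨B, hB0, hB⟩ := exists_coeff_bound P
        have hk0 : (0:ℝ) < k := by
          have : 0 < k := by omega
          exact_mod_cast this
        have h1 := hbun ((C * (k:ℝ) ^ ε') ^ q₀) ρ (by positivity) hρ hρ1.le ι a e he hsep
          (Pool.Agent.Helper37.Kq.pmap P) hP (3 * ρ * (A k / (B + 1)))
          (by have := hA k; positivity) (by
          intro δ hδ hδ1 hδ2 κ _ f hf1 hf2
          have hr : |δ / (3 * ρ)| * (B + 1) ≤ A k := by
            rw [abs_of_pos (by positivity), div_mul_eq_mul_div, div_le_iff₀ (by positivity)]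
            have h2 : 3 * ρ * (A k / (B + 1)) * (B + 1) = 3 * ρ * A k := by
              field_simp
            nlinarith
          have h2 := hCk k hk1 δ hδ hδ1 (fun j => MvPolynomial.C (δ / (3 * ρ)) * P j)
            (fun j => by
              refine (MvPolynomial.totalDegree_mul _ _).trans ?_
              rw [MvPolynomial.totalDegree_C, zero_add]
              exact hdeg j)
            (fun j s => by
              rw [MvPolynomial.coeff_C_mul, abs_mul]
              refine le_trans ?_ hr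
              gcongr
              linarith [hB j s]) κ f ⟨hf1, hf2⟩
          unfold Ineq at h2
          rw [norm_eq hq00] at h2
          have h3 := int_of_norm hd1 hq00 (by positivity) hδ (Nat.cast_nonneg _) h2
          have h4 : (fun i => pmap (fun j => MvPolynomial.C (δ / (3 * ρ)) * P j) (f i))
              = fun i => (δ / (3 * ρ)) • Pool.Agent.Helper37.Kq.pmap P (f i) := by
            funext i
            exact pmap_smul _ _ _
          rw [h4] at h3
          exact h3)
        refine h1.trans ?_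
        apply ENNReal.ofReal_le_ofReal
        have hN : (0:ℝ) ≤ ρ ^ d * (Fintype.card ι : ℝ) ^ (q₀ - 1 / (d:ℝ)) := by positivity
        apply mul_le_mul_of_nonneg_right _ hN
        rw [mul_assoc]
        apply mul_le_mul_of_nonneg_left _ hKb.le
        have h5 : (k:ℝ) ^ ε' ≤ K ^ ε' * (ρ⁻¹ ^ D) ^ ε' := by
          rw [← Real.mul_rpow hK.le (by positivity)]
          exact Real.rpow_le_rpow hk0.le hkK hε'0.le
        have h6 : ((ρ⁻¹ ^ D) ^ ε') ^ q₀ ≤ ρ ^ (-ε) := by
          rw [← Real.rpow_natCast, ← Real.rpow_mul (by positivity), ← Real.rpow_mul (by positivity),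
            Real.inv_rpow hρ.le, ← Real.rpow_neg hρ.le]
          apply Real.rpow_le_rpow_of_exponent_ge hρ hρ1.le
          rw [neg_le_neg_iff, hε']
          have e1 : (D:ℝ) * (ε / (q₀ * (D + 1)) * q₀) = ε * (D / (D + 1)) := by
            field_simp
          rw [e1]
          have e2 : (D:ℝ) / (D + 1) ≤ 1 := by
            rw [div_le_one (by positivity)]
            linarith
          nlinarith
        calc (C * (k:ℝ) ^ ε') ^ q₀ ≤ (C * (K ^ ε' * (ρ⁻¹ ^ D) ^ ε')) ^ q₀ := by gcongr
          _ = (C * K ^ ε') ^ q₀ * ((ρ⁻¹ ^ D) ^ ε') ^ q₀ := by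
              rw [← mul_assoc, Real.mul_rpow (by positivity) (by positivity)]
          _ ≤ (C * K ^ ε') ^ q₀ * ρ ^ (-ε) := by gcongr) ι a e he hsep
    refine (le_of_eq (lintegral_congr (fun y => ?_))).trans (hloc.trans (le_of_eq ?_))
    · rw [Fs_eq_mult]
    · congr 1
      ring
  obtain ⟨C, hC, hF⟩ := Pool.Agent.Y254.EL.euF_of_euL hd hq₀ hq hE
  obtain ⟨C', hC', h'⟩ := Pool.Agent.Results.MP_850839_an.LossRemoval.tubes_of_euF
    (by linarith) hC hF
  refine ⟨C', hC', ?_⟩
  intro δ hδ hδ1 ι _ a e hsep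
  exact h' δ hδ hδ1 ι a e hsep.1 hsep.2

/-- Analytic families are as hard as all families. -/
theorem analytic_step {d : ℕ} (hd : 1 ≤ d) {q : ℝ} (hq : 0 < q) (K : ℕ) {A C : ℝ} (hA : 0 < A)
    (hC : 0 < C) (h : AnalyticTubes (d + 1) q K A C) : Tubes (d + 1) q := by
  obtain ⟨Kb, hKb, hbun⟩ := bundle d hd hq
  refine ⟨(Kb * C ^ q) ^ (1 / q), by positivity, ?_⟩
  intro ρ hρ hρ1 ι _ a e hsep
  unfold Ineq
  rw [norm_eq hq]
  apply norm_of_int hd hq (by positivity) hρ (Nat.cast_nonneg _)
  -- a bound for the centres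
  have hR : ∃ R : ℝ, 0 < R ∧ ∀ i, ‖a i‖ ≤ R := by
    refine ⟨1 + ∑ i, ‖a i‖, ?_, ?_⟩
    · have : 0 ≤ ∑ i, ‖a i‖ := Finset.sum_nonneg (fun i _ => norm_nonneg _)
      linarith
    · intro i
      have : ‖a i‖ ≤ ∑ i, ‖a i‖ := Finset.single_le_sum (f := fun i => ‖a i‖)
        (fun i _ => norm_nonneg _) (Finset.mem_univ i)
      linarith
  obtain ⟨R, hR0, hR⟩ := hR
  obtain ⟨K', D, hK', happ⟩ := approx d hR0
  obtain ⟨k, P, hk1, hkK, hdeg, hP⟩ := happ ρ hρ hρ1.le ι a e hsep.1 hR hsep.2
  obtain ⟨B, hB0, hB⟩ := deriv_bound P K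
  refine hbun (C ^ q) ρ (by positivity) hρ hρ1.le ι a e hsep.1 hsep.2
    (Pool.Agent.Helper37.Kq.pmap P) hP (3 * ρ * (A / (B + 1))) (by positivity) ?_
  intro δ hδ hδ1 hδ2 κ _ f hf1 hf2
  have hr : |δ / (3 * ρ)| * (B + 1) ≤ A := by
    rw [abs_of_pos (by positivity), div_mul_eq_mul_div, div_le_iff₀ (by positivity)]
    have h2 : 3 * ρ * (A / (B + 1)) * (B + 1) = 3 * ρ * A := by
      field_simp
    nlinarith
  have han := analytic_pmap P
  have h2 := h δ hδ hδ1 (fun x => (δ / (3 * ρ)) • Pool.Agent.Helper37.Kq.pmap P x)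
    (fun x hx => analyticAt_const.fun_smul (han x hx)) (by
      intro j hj x hx
      have hcd : ContDiff ℝ j (Pool.Agent.Helper37.Kq.pmap P) := han.contDiff
      rw [iteratedFDeriv_const_smul_apply' hcd.contDiffAt, norm_smul, Real.norm_eq_abs]
      refine le_trans ?_ hr
      gcongr
      linarith [hB j hj x hx]) κ f ⟨hf1, hf2⟩
  unfold Ineq at h2
  rw [norm_eq hq] at h2
  exact int_of_norm hd hq hC.le hδ (Nat.cast_nonneg _) h2

/-- **The Kakeya inequality and the growth of the constants of polynomial families of lines.**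

Let `n ≥ 3` and let `A k > 0` be arbitrary bounds for the coefficients of the polynomials of degree
at most `k`.

(1) If at some exponent `q₀ ≥ n / (n - 1)` the inequality holds for polynomial families of degree at
most `k` with a constant `O(k ^ ε)`, for every `ε > 0`, then it holds for all families of tubes and
all exponents `q > q₀`.

(2) The following are equivalent: the question of the problem in `ℝ^n` has a positive answer; for
every `q > n / (n - 1)` the constants for the polynomial families are bounded; for every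
`q > n / (n - 1)` they grow more slowly than every power of the degree.

(3) For every exponent `q > 0`, every `K` and every `A₀ > 0`, the inequality for all tubes is
equivalent to the inequality for the tubes whose centres are a real analytic function of the
orientation with derivatives of order at most `K` bounded by `A₀`. -/
theorem result (n : ℕ) (hn : 3 ≤ n) (A : ℕ → ℝ) (hA : ∀ k, 0 < A k) :
    (∀ q₀ q : ℝ, (n : ℝ) / (n - 1) ≤ q₀ → q₀ < q →
      (∀ ε : ℝ, 0 < ε → ∃ C : ℝ, 0 < C ∧ ∀ k : ℕ, 1 ≤ k →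
        PolyTubes n q₀ k (A k) (C * (k : ℝ) ^ ε)) → Tubes n q) ∧
    List.TFAE [
      ∀ q : ℝ, (n : ℝ) / (n - 1) < q → Tubes n q,
      ∀ q : ℝ, (n : ℝ) / (n - 1) < q → ∃ C : ℝ, 0 < C ∧ ∀ k : ℕ, PolyTubes n q k (A k) C,
      ∀ q : ℝ, (n : ℝ) / (n - 1) < q → ∀ ε : ℝ, 0 < ε → ∃ C : ℝ, 0 < C ∧ ∀ k : ℕ, 1 ≤ k →
        PolyTubes n q k (A k) (C * (k : ℝ) ^ ε)] ∧
    ∀ (q : ℝ) (K : ℕ) (A₀ : ℝ), 0 < q → 0 < A₀ →
      (Tubes n q ↔ ∃ C : ℝ, 0 < C ∧ AnalyticTubes n q K A₀ C) := by
  obtain ⟨d, rfl⟩ : ∃ d, n = d + 1 := ⟨n - 1, by omega⟩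
  have hd : 2 ≤ d := by omega
  have hd0 : (0 : ℝ) < d := by
    have : 0 < d := by omega
    exact_mod_cast this
  have e1 : (((d + 1 : ℕ) : ℝ)) / (((d + 1 : ℕ) : ℝ) - 1) = 1 + 1 / (d : ℝ) := by
    push_cast
    rw [add_sub_cancel_right]
    field_simp
  rw [e1]
  refine ⟨fun q₀ q h1 h2 h3 => main_step hd hA h1 h2 h3, ?_, ?_⟩
  · tfae_have 1 → 2 := by
      intro h q hq
      obtain ⟨C, hC, h'⟩ := h q hq
      exact ⟨C, hC, fun k δ hδ hδ1 P _ _ ι _ e hsep => h' δ hδ hδ1 ι _ e hsep⟩
    tfae_have 2 → 3 := by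
      intro h q hq ε hε
      obtain ⟨C, hC, h'⟩ := h q hq
      refine ⟨C, hC, ?_⟩
      intro k hk δ hδ hδ1 P hP1 hP2 ι _ e hsep
      refine (h' k δ hδ hδ1 P hP1 hP2 ι e hsep).trans ?_
      apply ENNReal.ofReal_le_ofReal
      have hk1 : (1:ℝ) ≤ (k:ℝ) ^ ε := by
        apply Real.one_le_rpow _ hε.le
        exact_mod_cast hk
      gcongr
      exact le_mul_of_one_le_right hC.le hk1
    tfae_have 3 → 1 := by
      intro h q hq
      obtain ⟨q₀, h1, h2⟩ := exists_between hq
      exact main_step hd hA h1.le h2 (h q₀ h1)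
    tfae_finish
  · intro q K A₀ hq hA₀
    constructor
    · rintro ⟨C, hC, h'⟩
      exact ⟨C, hC, fun δ hδ hδ1 b _ _ ι _ e hsep => h' δ hδ hδ1 ι _ e hsep⟩
    · rintro ⟨C, hC, h'⟩
      exact analytic_step (by omega) hq K hA₀ hC h'

end Pool.Agent.Results.MP_850839_an.PolynomialDegreeGrowth
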