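import Pool.Agent.Helper37.Pt.Fun4
import Pool.Agent.Helper37.Pt.Dual
import Pool.Graph.R_pool_sql_team_seeded_843ab51a.Results.MP_850839_an.LossRemoval
import Pool.Graph.R_pool_sql_team_seeded_5cf16337.Results.MP_850839_an.HybridAllDimensions

set_option autoImplicit false

/-!
# MP_850839: the inequality of the problem tested on functions of product type

By duality the inequality of the problem, for an exponent `q > 1`, says that
`∫ f ∑_T 1_T ≤ C δ^((n-1)/q) (#T)^(1-1/(q(n-1))) ‖f‖_(q')`, `q' = q/(q-1)`, for all `f ≥ 0`.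
Here arbitrary families of `δ`-tubes with `δ`-separated orientations in `ℝ^n`,
`n = d_1 + ... + d_m`, are tested on the functions of product type
`f (x) = f_1 (x_1) ... f_m (x_m)`, `x_j ∈ ℝ^(d_j)`, for arbitrary measurable `f_j ≥ 0` and an
arbitrary orthogonal splitting of `ℝ^n`.  We show that these tests follow from the inequality of
the problem in the dimensions `d_j ≥ 3` of the factors; in particular they hold in the full range
`q > n/(n-1)` if all the factors have dimension at most two.  There is no loss in `δ`, and the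
dependence on the number of the tubes is the conjectured one.
-/

open MeasureTheory Set Filter Topology ENNReal NNReal Metric

namespace Pool.Agent.Results.MP_850839_an.ProductTests

/-- The `δ`-tube with centre `a` and direction `e` (a unit vector): the closed cylinder of length
`1` and radius `δ` around the segment with centre `a` and direction `e`. -/
def tube {n : ℕ} (δ : ℝ) (a e : EuclideanSpace ℝ (Fin n)) : Set (EuclideanSpace ℝ (Fin n)) :=
  {y | |inner ℝ (y - a) e| ≤ 1 / 2 ∧ ‖(y - a) - (inner ℝ (y - a) e) • e‖ ≤ δ}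

/-- The inequality of the problem in `ℝ^n`, for the exponent `q` and for all families of tubes. -/
def Tubes (n : ℕ) (q : ℝ) : Prop :=
  ∃ C : ℝ, 0 < C ∧ ∀ δ : ℝ, 0 < δ → δ < 1 → ∀ (ι : Type) [Fintype ι]
    (a e : ι → EuclideanSpace ℝ (Fin n)), (∀ i, ‖e i‖ = 1) →
    (∀ i j, i ≠ j → δ ≤ ‖e i - e j‖) →
    eLpNorm (fun x => ∑ i, (tube δ (a i) (e i)).indicator (fun _ => (1 : ℝ)) x)
        (ENNReal.ofReal q) volume ≤
      ENNReal.ofReal (C * δ ^ (((n : ℝ) - 1) / q) *
        (Fintype.card ι : ℝ) ^ (1 - 1 / (q * ((n : ℝ) - 1))))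

/-- The same inequality with arbitrarily small losses `δ ^ (-ε)`. -/
def TubesLoss (n : ℕ) (q : ℝ) : Prop :=
  ∀ ε : ℝ, 0 < ε → ∃ C : ℝ, 0 < C ∧ ∀ δ : ℝ, 0 < δ → δ < 1 → ∀ (ι : Type) [Fintype ι]
    (a e : ι → EuclideanSpace ℝ (Fin n)), (∀ i, ‖e i‖ = 1) →
    (∀ i j, i ≠ j → δ ≤ ‖e i - e j‖) →
    eLpNorm (fun x => ∑ i, (tube δ (a i) (e i)).indicator (fun _ => (1 : ℝ)) x)
        (ENNReal.ofReal q) volume ≤
      ENNReal.ofReal (C * δ ^ (-ε) * δ ^ (((n : ℝ) - 1) / q) *
        (Fintype.card ι : ℝ) ^ (1 - 1 / (q * ((n : ℝ) - 1))))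

/-- The slopes `c` for which the inequality of the problem is known in `ℝ^D` for all
`Q > 1 + c / (D - 1)`. -/
def KnownSlope (D : ℕ) (c : ℝ) : Prop :=
  (3 ≤ D ∧ 2 * ((D : ℝ) - 1) / D ≤ c) ∨
  (10 ≤ D ∧ 1 < c ∧ 0 < ((D : ℝ) - 1) * (c ^ 3 - 4 * c + 2) + c * (3 * c - 1 - c ^ 2)) ∨
  (D = 8 ∧ 1.61037 < c) ∨ (D = 6 ∧ 1.58728 < c)

/-- The inequality of the problem in `ℝ^n`, `n = d 0 + ... + d (m - 1)`, for the exponent `q`,
tested on functions of product type: for every orthogonal splitting `T` of `ℝ^n` into the spaces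
`ℝ^(d j)`, all measurable functions `f j ≥ 0` on `ℝ^(d j)` and all families of `δ`-tubes in `ℝ^n`
with `δ`-separated orientations, the integral of `∑ 1_T` against the product of the functions
`f j` is at most `C δ^((n-1)/q) (#T)^(1-1/(q(n-1)))` times the product of the norms of the `f j`
in `L^(q/(q-1))`. -/
def OnProducts {m : ℕ} (d : Fin m → ℕ) (q : ℝ) : Prop :=
  ∃ C : ℝ, 0 < C ∧ ∀ (T : EuclideanSpace ℝ (Fin (∑ j, d j)) ≃ₗᵢ[ℝ]
      PiLp 2 (fun j : Fin m => EuclideanSpace ℝ (Fin (d j))))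
    (f : ∀ j, EuclideanSpace ℝ (Fin (d j)) → ℝ≥0∞), (∀ j, Measurable (f j)) →
    ∀ δ : ℝ, 0 < δ → δ < 1 → ∀ (ι : Type) [Fintype ι]
    (a e : ι → EuclideanSpace ℝ (Fin (∑ j, d j))), (∀ i, ‖e i‖ = 1) →
    (∀ i j, i ≠ j → δ ≤ ‖e i - e j‖) →
    ∫⁻ x, (∏ j, f j (T x j)) * ∑ i, (tube δ (a i) (e i)).indicator (fun _ => (1 : ℝ≥0∞)) x ≤
      ENNReal.ofReal (C * δ ^ ((((∑ j, d j : ℕ) : ℝ) - 1) / q) *
        (Fintype.card ι : ℝ) ^ (1 - 1 / (q * (((∑ j, d j : ℕ) : ℝ) - 1)))) *
        ∏ j, (∫⁻ y, f j y ^ (q / (q - 1))) ^ (1 - 1 / q)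

/-- The same inequality for the indicator functions of Cartesian products of measurable sets. -/
def OnProductSets {m : ℕ} (d : Fin m → ℕ) (q : ℝ) : Prop :=
  ∃ C : ℝ, 0 < C ∧ ∀ (T : EuclideanSpace ℝ (Fin (∑ j, d j)) ≃ₗᵢ[ℝ]
      PiLp 2 (fun j : Fin m => EuclideanSpace ℝ (Fin (d j))))
    (A : ∀ j, Set (EuclideanSpace ℝ (Fin (d j)))), (∀ j, MeasurableSet (A j)) →
    ∀ δ : ℝ, 0 < δ → δ < 1 → ∀ (ι : Type) [Fintype ι]
    (a e : ι → EuclideanSpace ℝ (Fin (∑ j, d j))), (∀ i, ‖e i‖ = 1) →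
    (∀ i j, i ≠ j → δ ≤ ‖e i - e j‖) →
    ∫⁻ x in {x | ∀ j, T x j ∈ A j},
        ∑ i, (tube δ (a i) (e i)).indicator (fun _ => (1 : ℝ≥0∞)) x ≤
      ENNReal.ofReal (C * δ ^ ((((∑ j, d j : ℕ) : ℝ) - 1) / q) *
        (Fintype.card ι : ℝ) ^ (1 - 1 / (q * (((∑ j, d j : ℕ) : ℝ) - 1)))) *
        (∏ j, volume (A j)) ^ (1 - 1 / q)

open Pool.Agent.Helper37.Pt (PP Tub pp_one pp_two pp_of_tub main_pi main_f vol_prod lint_prod)

theorem int_eq {n : ℕ} {W : Set (EuclideanSpace ℝ (Fin n))} {δ : ℝ} {ι : Type}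
    [Fintype ι] (a e : ι → EuclideanSpace ℝ (Fin n)) :
    ∫⁻ x in W, ∑ i, (tube δ (a i) (e i)).indicator (fun _ => (1 : ℝ≥0∞)) x =
      ∑ i, volume (tube δ (a i) (e i) ∩ W) := by
  have hTm : ∀ i, MeasurableSet (tube δ (a i) (e i)) := fun i =>
    (Pool.Agent.Helper37.Pt.isClosed_tube δ (a i) (e i)).measurableSet
  rw [lintegral_finsetSum _ fun i _ => measurable_const.indicator (hTm i)]
  refine Finset.sum_congr rfl fun i _ => ?_
  rw [lintegral_indicator (hTm i), setLIntegral_one, Measure.restrict_apply (hTm i)]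

/-- The volume of a product, in `ℝ^n`. -/
theorem vol_eq {m : ℕ} {d : Fin m → ℕ} (T : EuclideanSpace ℝ (Fin (∑ j, d j)) ≃ₗᵢ[ℝ]
      PiLp 2 (fun j : Fin m => EuclideanSpace ℝ (Fin (d j))))
    {A : ∀ j, Set (EuclideanSpace ℝ (Fin (d j)))} (hA : ∀ j, MeasurableSet (A j)) :
    volume {x | ∀ j, T x j ∈ A j} = ∏ j, volume (A j) := by
  rw [← vol_prod hA]
  have h1 := T.measurePreserving
  have e1 : {x | ∀ j, T x j ∈ A j} = T ⁻¹' {x | ∀ j, x j ∈ A j} := rfl
  rw [e1]
  have hm : MeasurableSet {x : PiLp 2 (fun j : Fin m => EuclideanSpace ℝ (Fin (d j))) |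
      ∀ j, x j ∈ A j} := by
    have e1 : {x : PiLp 2 (fun j : Fin m => EuclideanSpace ℝ (Fin (d j))) | ∀ j, x j ∈ A j} =
        ⋂ j, (fun x : PiLp 2 (fun j => EuclideanSpace ℝ (Fin (d j))) => x j) ⁻¹' A j := by
      ext x
      simp
    rw [e1]
    refine MeasurableSet.iInter fun j => ?_
    have h1 : Continuous (fun x : PiLp 2 (fun j => EuclideanSpace ℝ (Fin (d j))) => x j) := by
      fun_prop
    exact h1.measurable (hA j)
  exact h1.measure_preimage hm.nullMeasurableSet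

theorem tube_pre {n : ℕ} {Y : Type} [NormedAddCommGroup Y] [InnerProductSpace ℝ Y]
    (T : EuclideanSpace ℝ (Fin n) ≃ₗᵢ[ℝ] Y) (δ : ℝ) (a e : EuclideanSpace ℝ (Fin n)) :
    tube δ a e = T ⁻¹' Pool.Agent.Helper37.Pt.tube δ (T a) (T e) := by
  ext y
  show (_ ∧ _) ↔ (_ ∧ _)
  rw [← map_sub, T.inner_map_map, ← map_smul, ← map_sub, T.norm_map]

/-- The estimates in the factors. -/
theorem pp_all {s : ℝ} (hs : 1 < s) {D : ℕ} (hD : 1 ≤ D)
    (h : 3 ≤ D → Tubes D (1 + s / ((D : ℝ) - 1))) : ∃ C : ℝ, 0 < C ∧ PP D (1 / s) C := by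
  have hs0 : 0 < s := by linarith
  have hκ0 : 0 < 1 / s := by positivity
  have hκ1 : 1 / s < 1 := by rw [div_lt_one hs0]; exact hs
  rcases Nat.lt_or_ge D 3 with h3 | h3
  · have h12 : D = 1 ∨ D = 2 := by omega
    rcases h12 with rfl | rfl
    · exact pp_one hκ0.le
    · exact pp_two hκ0 hκ1
  · have hD1 : (0:ℝ) < (D:ℝ) - 1 := by
      have : (3:ℝ) ≤ D := by exact_mod_cast h3
      linarith
    have h1 := pp_of_tub (d := D) (by omega) (Q := 1 + s / ((D : ℝ) - 1)) (by
      have : 0 < s / ((D : ℝ) - 1) := by positivity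
      linarith) (h h3)
    have e1 : 1 / ((1 + s / ((D : ℝ) - 1) - 1) * ((D : ℝ) - 1)) = 1 / s := by
      rw [add_sub_cancel_left, div_mul_cancel₀ _ hD1.ne']
    rw [e1] at h1
    exact h1

theorem transferS {m : ℕ} {d : Fin m → ℕ} (hd : ∀ j, 1 ≤ d j) (hn : 2 ≤ ∑ j, d j) {s : ℝ}
    (hs : 1 < s) (h : ∀ j, 3 ≤ d j → Tubes (d j) (1 + s / ((d j : ℝ) - 1))) :
    OnProductSets d (1 + s / (((∑ j, d j : ℕ) : ℝ) - 1)) := by
  have hm : 1 ≤ m := by
    by_contra hcon
    have h0 : m = 0 := by omega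
    subst h0
    simp at hn
  have hs0 : 0 < s := by linarith
  have hκ0 : 0 < 1 / s := by positivity
  have hκ1 : 1 / s < 1 := by rw [div_lt_one hs0]; exact hs
  have hn2 : (2:ℝ) ≤ ((∑ j, d j : ℕ) : ℝ) := by exact_mod_cast hn
  set n : ℝ := ((∑ j, d j : ℕ) : ℝ) with hndef
  have hn1 : 0 < n - 1 := by linarith
  set q : ℝ := 1 + s / (n - 1) with hq
  set p : ℝ := 1 + 1 / s * (n - 1) with hp
  have hp0 : 0 < p := by positivity
  have hq0 : 0 < q := by positivity
  have e1 : 1 - 1 / p = 1 / q := by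
    rw [hp, hq]
    field_simp
    ring
  have e2 : 1 / s / p = 1 / (q * (n - 1)) := by
    rw [hp, hq]
    field_simp
    ring
  have e3 : 1 / p = 1 - 1 / q := by linarith
  obtain ⟨K, hK, hmain⟩ := main_pi hm hd hκ0 hκ1 (fun j => pp_all hs (hd j) (h j)) (p := p)
    (n := n) (by rw [hndef]; push_cast; rfl) (by linarith) hp
  refine ⟨K, hK, ?_⟩
  intro T A hA δ hδ hδ1 ι _ a e he hsep
  have h1 := hmain δ hδ hδ1 ι (fun i => T (a i)) (fun i => T (e i))
    (fun i => by rw [T.norm_map]; exact he i)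
    (fun i i' hii => by rw [← map_sub, T.norm_map]; exact hsep i i' hii) A hA
  rw [int_eq]
  have h2 : ∀ i, volume (tube δ (a i) (e i) ∩ {x | ∀ j, T x j ∈ A j}) =
      volume (Pool.Agent.Helper37.Pt.tube δ (T (a i)) (T (e i)) ∩
        {x : PiLp 2 (fun j : Fin m => EuclideanSpace ℝ (Fin (d j))) | ∀ j, x j ∈ A j}) := by
    intro i
    have hm : MeasurableSet {x : PiLp 2 (fun j : Fin m => EuclideanSpace ℝ (Fin (d j))) |
        ∀ j, x j ∈ A j} := by
      have e1 : {x : PiLp 2 (fun j : Fin m => EuclideanSpace ℝ (Fin (d j))) | ∀ j, x j ∈ A j} =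
          ⋂ j, (fun x : PiLp 2 (fun j => EuclideanSpace ℝ (Fin (d j))) => x j) ⁻¹' A j := by
        ext x
        simp
      rw [e1]
      refine MeasurableSet.iInter fun j => ?_
      have h1 : Continuous (fun x : PiLp 2 (fun j => EuclideanSpace ℝ (Fin (d j))) => x j) := by
        fun_prop
      exact h1.measurable (hA j)
    have hTm := (Pool.Agent.Helper37.Pt.isClosed_tube δ (T (a i)) (T (e i))).measurableSet
    rw [← T.measurePreserving.measure_preimage (hTm.inter hm).nullMeasurableSet, preimage_inter,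
      ← tube_pre]
    rfl
  rw [Finset.sum_congr rfl fun i _ => h2 i]
  refine h1.trans (le_of_eq ?_)
  have e4 : (n - 1) * (1 - 1 / p) = (n - 1) / q := by rw [e1]; ring
  rw [← hndef, e4, e2, e3]

/-- The integral of a function of product type over a tube. -/
theorem int_tube {m : ℕ} {d : Fin m → ℕ} (T : EuclideanSpace ℝ (Fin (∑ j, d j)) ≃ₗᵢ[ℝ]
      PiLp 2 (fun j : Fin m => EuclideanSpace ℝ (Fin (d j))))
    {f : ∀ j, EuclideanSpace ℝ (Fin (d j)) → ℝ≥0∞} (hf : ∀ j, Measurable (f j)) {δ : ℝ} {ι : Type}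
    [Fintype ι] (a e : ι → EuclideanSpace ℝ (Fin (∑ j, d j))) :
    ∫⁻ x, (∏ j, f j (T x j)) * ∑ i, (tube δ (a i) (e i)).indicator (fun _ => (1 : ℝ≥0∞)) x =
      ∑ i, ∫⁻ x in Pool.Agent.Helper37.Pt.tube δ (T (a i)) (T (e i)), ∏ j, f j (x j) := by
  have hg : Measurable (fun x : EuclideanSpace ℝ (Fin (∑ j, d j)) => ∏ j, f j (T x j)) := by
    refine Finset.measurable_prod _ fun j _ => ?_
    have h1 : Continuous (fun x => T x j) := by fun_prop
    exact (hf j).comp h1.measurable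
  have hg' : Measurable (fun x : PiLp 2 (fun j : Fin m => EuclideanSpace ℝ (Fin (d j))) =>
      ∏ j, f j (x j)) := by
    refine Finset.measurable_prod _ fun j _ => ?_
    have h1 : Continuous (fun x : PiLp 2 (fun j => EuclideanSpace ℝ (Fin (d j))) => x j) := by
      fun_prop
    exact (hf j).comp h1.measurable
  have hTm : ∀ i, MeasurableSet (tube δ (a i) (e i)) := fun i =>
    (Pool.Agent.Helper37.Pt.isClosed_tube δ (a i) (e i)).measurableSet
  have hTm' : ∀ i, MeasurableSet (Pool.Agent.Helper37.Pt.tube δ (T (a i)) (T (e i))) := fun i =>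
    (Pool.Agent.Helper37.Pt.isClosed_tube δ _ _).measurableSet
  simp only [Finset.mul_sum]
  rw [lintegral_finsetSum (f := fun i x => (∏ j, f j (T x j)) *
    (tube δ (a i) (e i)).indicator (fun _ => (1 : ℝ≥0∞)) x) _
    fun i _ => hg.mul (measurable_const.indicator (hTm i))]
  refine Finset.sum_congr rfl fun i _ => ?_
  rw [← lintegral_indicator (hTm' i),
    ← T.measurePreserving.lintegral_comp (hg'.indicator (hTm' i))]
  apply lintegral_congr
  intro x
  by_cases hx : x ∈ tube δ (a i) (e i)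
  · have hx' : T x ∈ Pool.Agent.Helper37.Pt.tube δ (T (a i)) (T (e i)) := by
      rw [tube_pre T] at hx
      exact hx
    rw [indicator_of_mem hx, indicator_of_mem hx', mul_one]
  · have hx' : T x ∉ Pool.Agent.Helper37.Pt.tube δ (T (a i)) (T (e i)) := by
      rw [tube_pre T] at hx
      exact hx
    rw [indicator_of_notMem hx, indicator_of_notMem hx', mul_zero]

theorem transfer {m : ℕ} {d : Fin m → ℕ} (hd : ∀ j, 1 ≤ d j) (hn : 2 ≤ ∑ j, d j) {s s1 : ℝ}
    (hs : 1 < s) (hs1 : s < s1) (h : ∀ j, 3 ≤ d j → Tubes (d j) (1 + s / ((d j : ℝ) - 1))) :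
    OnProducts d (1 + s1 / (((∑ j, d j : ℕ) : ℝ) - 1)) := by
  have hm : 1 ≤ m := by
    by_contra hcon
    have h0 : m = 0 := by omega
    subst h0
    simp at hn
  have hs0 : 0 < s := by linarith
  have hs10 : 0 < s1 := by linarith
  have hκ0 : 0 < 1 / s1 := by positivity
  have hκκ : 1 / s1 < 1 / s := one_div_lt_one_div_of_lt hs0 hs1
  have hκ1 : 1 / s < 1 := by rw [div_lt_one hs0]; exact hs
  have hn2 : (2:ℝ) ≤ ((∑ j, d j : ℕ) : ℝ) := by exact_mod_cast hn
  set n : ℝ := ((∑ j, d j : ℕ) : ℝ) with hndef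
  have hn1 : 0 < n - 1 := by linarith
  set q : ℝ := 1 + s1 / (n - 1) with hq
  set p : ℝ := 1 + 1 / s1 * (n - 1) with hp
  have hp0 : 0 < p := by positivity
  have hq0 : 0 < q := by positivity
  have hq1 : q - 1 = s1 / (n - 1) := by rw [hq]; ring
  have e1 : 1 - 1 / p = 1 / q := by
    rw [hp, hq]
    field_simp
    ring
  have e2 : 1 / s1 / p = 1 / (q * (n - 1)) := by
    rw [hp, hq]
    field_simp
    ring
  have e3 : 1 / p = 1 - 1 / q := by linarith
  have e5 : q / (q - 1) = p := by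
    rw [hq1, hp, hq]
    field_simp
    ring
  obtain ⟨K, hK, hmain⟩ := main_f hm hd hκ0 hκκ hκ1 (fun j => pp_all hs (hd j) (h j)) (p := p)
    (n := n) (by rw [hndef]; push_cast; rfl) (by linarith) hp
  refine ⟨K, hK, ?_⟩
  intro T f hf δ hδ hδ1 ι _ a e he hsep
  have h1 := hmain δ hδ hδ1 ι (fun i => T (a i)) (fun i => T (e i))
    (fun i => by rw [T.norm_map]; exact he i)
    (fun i i' hii => by rw [← map_sub, T.norm_map]; exact hsep i i' hii) f hf
  rw [int_tube T hf]
  refine h1.trans (le_of_eq ?_)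
  have e4 : (n - 1) * (1 - 1 / p) = (n - 1) / q := by rw [e1]; ring
  rw [← hndef, e4, e2, e3, e5]

theorem known {D : ℕ} {c : ℝ} (h : KnownSlope D c) :
    ∀ Q : ℝ, 1 + c / ((D : ℝ) - 1) < Q → Tubes D Q := by
  rcases h with ⟨hD, hc⟩ | h
  · have hD3 : (3:ℝ) ≤ D := by exact_mod_cast hD
    have hD0 : (0:ℝ) < D := by linarith
    have hD1 : (0:ℝ) < (D:ℝ) - 1 := by linarith
    intro Q hQ
    refine (Pool.Agent.Results.MP_850839_an.LossRemoval.result D hD).2.2.2 Q (lt_of_le_of_lt ?_ hQ)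
    have h1 : 2 / (D:ℝ) ≤ c / ((D:ℝ) - 1) := by
      rw [le_div_iff₀ hD1]
      refine le_trans (le_of_eq ?_) hc
      ring
    have h2 : ((D:ℝ) + 2) / D = 1 + 2 / D := by field_simp
    rw [h2]
    linarith
  · have hS : Pool.Agent.Results.MP_850839_an.HybridAllDimensions.Slope D c := by
      rcases h with h | h | h
      · exact Or.inl h
      · exact Or.inr (Or.inl h)
      · exact Or.inr (Or.inr h)
    intro Q hQ
    exact Pool.Agent.Results.MP_850839_an.HybridAllDimensions.result D c Q hS hQ.le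

/-- `q > 1 + c / (n - 1)` as `q = 1 + s / (n - 1)`, `s > c`. -/
theorem from_slope {m : ℕ} {d : Fin m → ℕ} (hd : ∀ j, 1 ≤ d j) (hn : 2 ≤ ∑ j, d j) {c : ℝ}
    (hc : 1 ≤ c)
    (h : ∀ j, 3 ≤ d j → ∀ Q : ℝ, 1 + c / ((d j : ℝ) - 1) < Q → Tubes (d j) Q) {q : ℝ}
    (hq : 1 + c / (((∑ j, d j : ℕ) : ℝ) - 1) < q) : OnProducts d q := by
  have hn2 : (2:ℝ) ≤ ((∑ j, d j : ℕ) : ℝ) := by exact_mod_cast hn
  set n : ℝ := ((∑ j, d j : ℕ) : ℝ) with hndef
  have hn1 : 0 < n - 1 := by linarith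
  have hs : c < (q - 1) * (n - 1) := by
    rw [← div_lt_iff₀ hn1]
    linarith
  obtain ⟨s, hs1, hs2⟩ := exists_between hs
  have h1 := transfer hd hn (s := s) (s1 := (q - 1) * (n - 1)) (by linarith) hs2 (fun j hj => by
    apply h j hj
    have hd3 : (3:ℝ) ≤ d j := by exact_mod_cast hj
    have : (0:ℝ) < (d j : ℝ) - 1 := by linarith
    gcongr)
  have e1 : 1 + (q - 1) * (n - 1) / (n - 1) = q := by
    field_simp
    ring
  rw [← hndef, e1] at h1
  exact h1

/-- A single factor. -/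
theorem single (d : Fin 1 → ℕ) {q : ℝ} (hq : 1 < q) :
    OnProducts d q ↔ Tubes (∑ j, d j) q := by
  constructor
  · rintro ⟨C, hC, h⟩
    refine Pool.Agent.Helper37.Pt.tub_of_fun hq hC ?_
    intro g hg δ hδ hδ1 ι _ a e he hsep
    -- an isometry
    have hfr : Module.finrank ℝ (EuclideanSpace ℝ (Fin (∑ j, d j))) =
        Module.finrank ℝ (PiLp 2 (fun j : Fin 1 => EuclideanSpace ℝ (Fin (d j)))) := by
      rw [finrank_euclideanSpace_fin,
        (WithLp.linearEquiv 2 ℝ (∀ j : Fin 1, EuclideanSpace ℝ (Fin (d j)))).finrank_eq,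
        Module.finrank_pi_fintype]
      simp
    let b1 := stdOrthonormalBasis ℝ (EuclideanSpace ℝ (Fin (∑ j, d j)))
    let b2 := (stdOrthonormalBasis ℝ
      (PiLp 2 (fun j : Fin 1 => EuclideanSpace ℝ (Fin (d j))))).reindex (finCongr hfr.symm)
    let T : EuclideanSpace ℝ (Fin (∑ j, d j)) ≃ₗᵢ[ℝ]
      PiLp 2 (fun j : Fin 1 => EuclideanSpace ℝ (Fin (d j))) := b1.repr.trans b2.repr.symm
    -- the inclusion of the factor
    set c : ∀ j : Fin 1, EuclideanSpace ℝ (Fin (d j)) →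
        PiLp 2 (fun j : Fin 1 => EuclideanSpace ℝ (Fin (d j))) := fun j y =>
      WithLp.toLp 2 (Function.update 0 j y) with hc
    have hcc : ∀ j, Continuous (c j) := by
      intro j
      have h1 : Continuous (fun y : EuclideanSpace ℝ (Fin (d j)) =>
          (Function.update 0 j y : ∀ j : Fin 1, EuclideanSpace ℝ (Fin (d j)))) :=
        continuous_const.update j continuous_id
      exact (PiLp.continuous_toLp 2 _).comp h1
    have hcx : ∀ (j : Fin 1) (x : PiLp 2 (fun j : Fin 1 => EuclideanSpace ℝ (Fin (d j)))),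
        c j (x j) = x := by
      intro j x
      ext k
      have hk : k = j := Subsingleton.elim _ _
      subst hk
      simp [hc]
    set f : ∀ j : Fin 1, EuclideanSpace ℝ (Fin (d j)) → ℝ≥0∞ := fun j y => g (T.symm (c j y))
      with hf
    have hfm : ∀ j, Measurable (f j) := fun j =>
      hg.comp (T.symm.continuous.comp (hcc j)).measurable
    have h1 := h T f hfm δ hδ hδ1 ι a e he hsep
    have hfx : ∀ (j : Fin 1) (x : EuclideanSpace ℝ (Fin (∑ j, d j))), f j (T x j) = g x := by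
      intro j x
      rw [hf]
      simp only
      rw [hcx, T.symm_apply_apply]
    have h2 : ∀ x : EuclideanSpace ℝ (Fin (∑ j, d j)), ∏ j, f j (T x j) = g x := by
      intro x
      rw [Finset.prod_congr rfl fun j _ => hfx j x]
      simp
    simp only [h2] at h1
    refine h1.trans (le_of_eq ?_)
    congr 1
    have h3 := lint_prod (d := d) (h := fun j y => f j y ^ (q / (q - 1)))
      (fun j => (hfm j).pow_const _)
    have hmm : Measurable (fun x : PiLp 2 (fun j : Fin 1 => EuclideanSpace ℝ (Fin (d j))) =>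
        ∏ j, f j (x j) ^ (q / (q - 1))) := by
      refine Finset.measurable_prod _ fun j _ => ?_
      have h1 : Continuous (fun x : PiLp 2 (fun j => EuclideanSpace ℝ (Fin (d j))) => x j) := by
        fun_prop
      exact ((hfm j).pow_const _).comp h1.measurable
    rw [← T.measurePreserving.lintegral_comp hmm] at h3
    simp only [hfx, Finset.univ_unique, Finset.prod_singleton] at h3 ⊢
    rw [← h3]
  · intro h
    obtain ⟨C, hC, h1⟩ := Pool.Agent.Helper37.Pt.fun_of_tub (n := ∑ j, d j) hq h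
    refine ⟨C, hC, ?_⟩
    intro T f hf δ hδ hδ1 ι _ a e he hsep
    have hg : Measurable (fun x : EuclideanSpace ℝ (Fin (∑ j, d j)) => ∏ j, f j (T x j)) := by
      refine Finset.measurable_prod _ fun j _ => ?_
      have h1 : Continuous (fun x => T x j) := by fun_prop
      exact (hf j).comp h1.measurable
    refine (h1 _ hg δ hδ hδ1 ι a e he hsep).trans (le_of_eq ?_)
    congr 1
    have h3 := lint_prod (d := d) (h := fun j y => f j y ^ (q / (q - 1)))
      (fun j => (hf j).pow_const _)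
    have hmm : Measurable (fun x : PiLp 2 (fun j : Fin 1 => EuclideanSpace ℝ (Fin (d j))) =>
        ∏ j, f j (x j) ^ (q / (q - 1))) := by
      refine Finset.measurable_prod _ fun j _ => ?_
      have h1 : Continuous (fun x : PiLp 2 (fun j => EuclideanSpace ℝ (Fin (d j))) => x j) := by
        fun_prop
      exact ((hf j).pow_const _).comp h1.measurable
    rw [← T.measurePreserving.lintegral_comp hmm] at h3
    simp only [Finset.univ_unique, Finset.prod_singleton] at h3 ⊢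
    rw [h3]

/-- **The inequality of the problem tested on functions of product type.**  Let
`d 0, ..., d (m - 1) ≥ 1` and `n = d 0 + ... + d (m - 1) ≥ 2`.

(1) Let `s > 1`.  If, for every `j` with `d j ≥ 3`, the inequality of the problem holds in
`ℝ^(d j)` for `Q = 1 + s / (d j - 1)`, then it holds in `ℝ^n`, tested on functions of product type
for the dimensions `d j`, for all `q = 1 + s1 / (n - 1)`, `s1 > s`, and, tested on Cartesian
products of sets, also for `q = 1 + s / (n - 1)` itself.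

(2) Unconditionally, if all `d j ≤ 2`, the tests on functions of product type hold in the full
range `q > n / (n - 1)`.

(3) Let `c ≥ 1`.  If, for every `j` with `d j ≥ 3`, `c` is a known slope of `ℝ^(d j)`, or the
inequality of the problem holds in `ℝ^(d j)` for `Q = 1 + c / (d j - 1)` with arbitrarily small
losses, then the tests on functions of product type hold for all `q > 1 + c / (n - 1)`.  (For
`c = 1` the second hypothesis is the Kakeya maximal conjecture in `ℝ^(d j)`, and the range is the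
full one.)

(4) For a single factor (`m = 1`) the tests at `q` are equivalent to the inequality of the problem
at `q`, for every `q > 1`. -/
theorem result :
    (∀ (m : ℕ) (d : Fin m → ℕ), (∀ j, 1 ≤ d j) → 2 ≤ ∑ j, d j → ∀ s : ℝ, 1 < s →
      (∀ j, 3 ≤ d j → Tubes (d j) (1 + s / ((d j : ℝ) - 1))) →
      (∀ s1 : ℝ, s < s1 → OnProducts d (1 + s1 / (((∑ j, d j : ℕ) : ℝ) - 1))) ∧
        OnProductSets d (1 + s / (((∑ j, d j : ℕ) : ℝ) - 1))) ∧
    (∀ (m : ℕ) (d : Fin m → ℕ), (∀ j, 1 ≤ d j) → 2 ≤ ∑ j, d j → (∀ j, d j ≤ 2) →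
      ∀ q : ℝ, ((∑ j, d j : ℕ) : ℝ) / (((∑ j, d j : ℕ) : ℝ) - 1) < q → OnProducts d q) ∧
    (∀ (m : ℕ) (d : Fin m → ℕ), (∀ j, 1 ≤ d j) → 2 ≤ ∑ j, d j → ∀ c : ℝ, 1 ≤ c →
      (∀ j, 3 ≤ d j → KnownSlope (d j) c ∨ TubesLoss (d j) (1 + c / ((d j : ℝ) - 1))) →
      ∀ q : ℝ, 1 + c / (((∑ j, d j : ℕ) : ℝ) - 1) < q → OnProducts d q) ∧
    (∀ (d : Fin 1 → ℕ) (q : ℝ), 1 < q → (OnProducts d q ↔ Tubes (∑ j, d j) q)) := by
  refine ⟨fun m d hd hn s hs h => ⟨fun s1 hs1 => transfer hd hn hs hs1 h, transferS hd hn hs h⟩,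
    ?_, ?_, fun d q hq => single d hq⟩
  · intro m d hd hn h2 q hq
    have hn2 : (2:ℝ) ≤ ((∑ j, d j : ℕ) : ℝ) := by exact_mod_cast hn
    refine from_slope hd hn le_rfl (fun j hj => ?_) ?_
    · have := h2 j
      omega
    · refine lt_of_le_of_lt (le_of_eq ?_) hq
      have : 0 < ((∑ j, d j : ℕ) : ℝ) - 1 := by linarith
      field_simp
      ring
  · intro m d hd hn c hc h q hq
    refine from_slope hd hn hc (fun j hj Q hQ => ?_) hq
    rcases h j hj with h1 | h1
    · exact known h1 Q hQ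
    · have hd3 : (3:ℝ) ≤ d j := by exact_mod_cast hj
      have hd0 : (0:ℝ) < (d j : ℝ) - 1 := by linarith
      refine (Pool.Agent.Results.MP_850839_an.LossRemoval.result (d j) hj).1
        (1 + c / ((d j : ℝ) - 1)) Q ?_ hQ h1
      have e2 : (d j : ℝ) / ((d j : ℝ) - 1) = 1 + 1 / ((d j : ℝ) - 1) := by
        field_simp
        ring
      rw [e2]
      gcongr

end Pool.Agent.Results.MP_850839_an.ProductTests
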