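import Pool.Agent.Helper37.Kp.Main
import Pool.Graph.R_pool_sql_team_seeded_843ab51a.Results.MP_850839_an.LossRemoval
import Pool.Graph.R_pool_sql_team_seeded_5cf16337.Results.MP_850839_an.HybridAllDimensions

set_option autoImplicit false

/-!
# MP_850839: tubes meeting a `k`-plane inherit the exponents of dimension `k + 1`

Write the exponents in `ℝ^n` as `q > 1 + c / (n - 1)`; `c = 1` is the conjectured range.  Let
`1 ≤ k ≤ n - 2`.  We prove that the inequality of the problem holds, in `ℝ^n` and for every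
`q > 1 + c / (n - 1)`, for all families of `δ`-tubes with `δ`-separated orientations which meet a
given `k`-dimensional affine plane (or whose axes, extended to length `2 R`, come `K δ`-close to
it), as soon as the inequality of the problem holds in `ℝ^(k+1)` for all tubes and all
`Q > 1 + c / k`.  The constant does not depend on the plane, there is no loss in `δ`, the dependence
on the number of the tubes is the conjectured one, and `M` planes cost only a factor
`M^(1 / (q (n - 1)))`.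
-/

open MeasureTheory Set Filter Topology ENNReal NNReal Metric

namespace Pool.Agent.Results.MP_850839_an.TubesMeetingPlanes

/-- The `δ`-tube with centre `a` and direction `e` (a unit vector): the closed cylinder of length
`1` and radius `δ` around the segment with centre `a` and direction `e`. -/
def tube {n : ℕ} (δ : ℝ) (a e : EuclideanSpace ℝ (Fin n)) : Set (EuclideanSpace ℝ (Fin n)) :=
  {y | |inner ℝ (y - a) e| ≤ 1 / 2 ∧ ‖(y - a) - (inner ℝ (y - a) e) • e‖ ≤ δ}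

/-- The inequality of the problem in `ℝ^n`, for the exponent `q` and for all families of tubes. -/
def Tubes (n : ℕ) (q : ℝ) : Prop :=
  ∃ C : ℝ, 0 < C ∧ ∀ δ : ℝ, 0 < δ → δ < 1 → ∀ (ι : Type) [Fintype ι]
    (a e : ι → EuclideanSpace ℝ (Fin n)), (∀ i, ‖e i‖ = 1) →
    (∀ i j, i ≠ j → δ ≤ ‖e i - e j‖) →
    eLpNorm (fun x => ∑ i, (tube δ (a i) (e i)).indicator (fun _ => (1 : ℝ)) x)
        (ENNReal.ofReal q) volume ≤
      ENNReal.ofReal (C * δ ^ (((n : ℝ) - 1) / q) *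
        (Fintype.card ι : ℝ) ^ (1 - 1 / (q * ((n : ℝ) - 1))))

/-- The same inequality with arbitrarily small losses `δ ^ (-ε)`. -/
def TubesLoss (n : ℕ) (q : ℝ) : Prop :=
  ∀ ε : ℝ, 0 < ε → ∃ C : ℝ, 0 < C ∧ ∀ δ : ℝ, 0 < δ → δ < 1 → ∀ (ι : Type) [Fintype ι]
    (a e : ι → EuclideanSpace ℝ (Fin n)), (∀ i, ‖e i‖ = 1) →
    (∀ i j, i ≠ j → δ ≤ ‖e i - e j‖) →
    eLpNorm (fun x => ∑ i, (tube δ (a i) (e i)).indicator (fun _ => (1 : ℝ)) x)
        (ENNReal.ofReal q) volume ≤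
      ENNReal.ofReal (C * δ ^ (-ε) * δ ^ (((n : ℝ) - 1) / q) *
        (Fintype.card ι : ℝ) ^ (1 - 1 / (q * ((n : ℝ) - 1))))

/-- The inequality of the problem in `ℝ^n`, for the exponent `q`, for all families of `δ`-tubes with
`δ`-separated orientations such that the axis of each tube, extended to length `2 R`, passes within
`K δ` of one of `M` affine planes of dimension `k`.  The constant depends only on `n`, `k`, `q`,
`K` and `R`, and is multiplied by `M ^ (1 / (q (n - 1)))`. -/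
def TubesNearPlanes (k n : ℕ) (q : ℝ) : Prop :=
  ∀ K R : ℝ, 0 ≤ K → 0 ≤ R → ∃ C : ℝ, 0 < C ∧
    ∀ (M : ℕ) (P : Fin M → AffineSubspace ℝ (EuclideanSpace ℝ (Fin n))),
    (∀ j, Module.finrank ℝ (P j).direction = k) →
    ∀ δ : ℝ, 0 < δ → δ < 1 → ∀ (ι : Type) [Fintype ι]
    (a e : ι → EuclideanSpace ℝ (Fin n)), (∀ i, ‖e i‖ = 1) →
    (∀ i j, i ≠ j → δ ≤ ‖e i - e j‖) →
    (∀ i, ∃ j, ∃ p ∈ P j, ∃ s : ℝ, |s| ≤ R ∧ ‖a i + s • e i - p‖ ≤ K * δ) →
    eLpNorm (fun x => ∑ i, (tube δ (a i) (e i)).indicator (fun _ => (1 : ℝ)) x)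
        (ENNReal.ofReal q) volume ≤
      ENNReal.ofReal (C * (M : ℝ) ^ (1 / (q * ((n : ℝ) - 1))) * δ ^ (((n : ℝ) - 1) / q) *
        (Fintype.card ι : ℝ) ^ (1 - 1 / (q * ((n : ℝ) - 1))))

/-- The slopes `c` for which the inequality of the problem is known in `ℝ^D` for all
`Q > 1 + c / (D - 1)`. -/
def KnownSlope (D : ℕ) (c : ℝ) : Prop :=
  (3 ≤ D ∧ 2 * ((D : ℝ) - 1) / D ≤ c) ∨
  (10 ≤ D ∧ 1 < c ∧ 0 < ((D : ℝ) - 1) * (c ^ 3 - 4 * c + 2) + c * (3 * c - 1 - c ^ 2)) ∨
  (D = 8 ∧ 1.61037 < c) ∨ (D = 6 ∧ 1.58728 < c)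

open Pool.Agent.Helper37.Kp Pool.Agent.K3h46.TMC Pool.Agent.H742R2.Kk

theorem norm_eq {n : ℕ} {q : ℝ} (hq0 : 0 < q) {ι : Type} [Fintype ι] (δ : ℝ)
    (a e : ι → EuclideanSpace ℝ (Fin n)) :
    eLpNorm (fun x => ∑ i, (tube δ (a i) (e i)).indicator (fun _ => (1 : ℝ)) x)
        (ENNReal.ofReal q) volume =
      (∫⁻ x, Fs δ (Icc (-(1 / 2)) (1 / 2)) e a x ^ q) ^ (1 / q) := by
  rw [eLpNorm_eq_lintegral_rpow_enorm_toReal (by
    rw [ne_eq, ENNReal.ofReal_eq_zero, not_le]; exact hq0) ENNReal.ofReal_ne_top,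
    ENNReal.toReal_ofReal hq0.le]
  congr 1
  apply lintegral_congr
  intro x
  congr 1
  rw [Real.enorm_of_nonneg (Finset.sum_nonneg fun i _ =>
    Set.indicator_nonneg (fun _ _ => zero_le_one) _),
    ENNReal.ofReal_sum_of_nonneg fun i _ => Set.indicator_nonneg (fun _ _ => zero_le_one) _]
  unfold Fs
  refine Finset.sum_congr rfl fun i _ => ?_
  by_cases hx : x ∈ tube δ (a i) (e i)
  · have hx' : x ∈ cyl δ (Icc (-(1 / 2)) (1 / 2)) (e i) (a i) := ⟨abs_le.1 hx.1, hx.2⟩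
    rw [Set.indicator_of_mem hx, Set.indicator_of_mem hx', ENNReal.ofReal_one]
  · have hx' : x ∉ cyl δ (Icc (-(1 / 2)) (1 / 2)) (e i) (a i) :=
      fun h => hx ⟨abs_le.2 h.1, h.2⟩
    rw [Set.indicator_of_notMem hx, Set.indicator_of_notMem hx', ENNReal.ofReal_zero]

theorem LL_of_tubes {k : ℕ} {Q : ℝ} (hQ : 0 < Q) (h : Tubes (k + 1) Q) : LL k Q := by
  obtain ⟨C, hC, h⟩ := h
  refine ⟨C ^ Q, by positivity, ?_⟩
  intro δ hδ hδ1 ι _ e a he hsep
  have h1 := h δ hδ hδ1 ι a e he hsep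
  rw [norm_eq hQ] at h1
  have h2 := ENNReal.rpow_le_rpow h1 hQ.le
  have e1 : (((k + 1 : ℕ) : ℝ) - 1) = k := by push_cast; ring
  rw [← ENNReal.rpow_mul, one_div_mul_cancel hQ.ne', ENNReal.rpow_one,
    ENNReal.ofReal_rpow_of_nonneg (by positivity) hQ.le, e1] at h2
  refine h2.trans (le_of_eq ?_)
  congr 1
  rw [Real.mul_rpow (by positivity) (by positivity), Real.mul_rpow (by positivity) (by positivity),
    ← Real.rpow_mul hδ.le, ← Real.rpow_mul (by positivity), div_mul_cancel₀ _ hQ.ne',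
    Real.rpow_natCast, mul_assoc]
  congr 3
  rcases Nat.eq_zero_or_pos k with h0 | h0
  · subst h0; simp
  · have : (0:ℝ) < k := by exact_mod_cast h0
    field_simp

theorem transfer {k n : ℕ} (hk : 1 ≤ k) (hn : k + 2 ≤ n) {c : ℝ} (hc : 1 ≤ c)
    (hT : ∀ Q : ℝ, 1 + c / k < Q → Tubes (k + 1) Q) {q : ℝ} (hq : 1 + c / ((n : ℝ) - 1) < q) :
    TubesNearPlanes k n q := by
  obtain ⟨m, rfl⟩ : ∃ m, n = k + m + 1 := ⟨n - k - 1, by omega⟩
  have hm : 1 ≤ m := by omega
  have hk0 : (0:ℝ) < k := by exact_mod_cast hk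
  have e1 : (((k + m + 1 : ℕ) : ℝ) - 1) = ((k + m : ℕ) : ℝ) := by push_cast; ring
  have hd0 : (0:ℝ) < ((k + m : ℕ) : ℝ) := by
    have : 0 < k + m := by omega
    exact_mod_cast this
  unfold TubesNearPlanes
  rw [e1] at hq ⊢
  have hq0 : 0 < q := by
    have : 0 < c / ((k + m : ℕ) : ℝ) := by positivity
    linarith
  intro K R hK hR
  obtain ⟨C, hC, h⟩ := planes hk hm hc (fun Q hQ => LL_of_tubes (by
    have : 0 < c / (k:ℝ) := by positivity
    linarith) (hT Q hQ)) hq hK hR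
  refine ⟨C, hC, ?_⟩
  intro M P hP δ hδ hδ1 ι _ a e he hsep hcl
  rcases isEmpty_or_nonempty ι with hι | hι
  · have h0 : (fun y : EuclideanSpace ℝ (Fin (k + m + 1)) =>
        ∑ i, (tube δ (a i) (e i)).indicator (fun _ => (1:ℝ)) y) = fun _ => 0 := by
      funext y
      simp
    rw [h0]
    simp
  classical
  rw [norm_eq hq0]
  refine h M (fun j => (P j).direction) hP
    (fun j => if hj : ∃ x, x ∈ P j then hj.choose else 0) δ hδ hδ1 ι e a he hsep ?_
  intro i
  obtain ⟨j, p, hp, s, hs, hsp⟩ := hcl i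
  have hj : ∃ x, x ∈ P j := ⟨p, hp⟩
  refine ⟨j, p - hj.choose, (P j).vsub_mem_direction hp hj.choose_spec, s, hs, ?_⟩
  rw [dif_pos hj, add_sub_cancel]
  exact hsp

theorem known {D : ℕ} {c : ℝ} (h : KnownSlope D c) :
    3 ≤ D ∧ 1 ≤ c ∧ ∀ Q : ℝ, 1 + c / ((D : ℝ) - 1) < Q → Tubes D Q := by
  rcases h with ⟨hD, hc⟩ | h
  · have hD3 : (3:ℝ) ≤ D := by exact_mod_cast hD
    have hD0 : (0:ℝ) < D := by linarith
    have hD1 : (0:ℝ) < (D:ℝ) - 1 := by linarith
    have hc1 : 1 ≤ c := by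
      refine le_trans ?_ hc
      rw [le_div_iff₀ hD0]
      linarith
    refine ⟨hD, hc1, ?_⟩
    intro Q hQ
    refine (Pool.Agent.Results.MP_850839_an.LossRemoval.result D hD).2.2.2 Q (lt_of_le_of_lt ?_ hQ)
    have h1 : 2 / (D:ℝ) ≤ c / ((D:ℝ) - 1) := by
      rw [le_div_iff₀ hD1]
      refine le_trans (le_of_eq ?_) hc
      ring
    have h2 : ((D:ℝ) + 2) / D = 1 + 2 / D := by field_simp
    rw [h2]
    linarith
  · have hS : Pool.Agent.Results.MP_850839_an.HybridAllDimensions.Slope D c := by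
      rcases h with h | h | h
      · exact Or.inl h
      · exact Or.inr (Or.inl h)
      · exact Or.inr (Or.inr h)
    have hD : 3 ≤ D := by
      rcases h with h | h | h
      · exact le_trans (by norm_num) h.1
      · omega
      · omega
    have hc1 : 1 ≤ c := by
      rcases h with h | h | h
      · exact h.2.1.le
      · have := h.2
        norm_num at this
        linarith
      · have := h.2
        norm_num at this
        linarith
    refine ⟨hD, hc1, ?_⟩
    intro Q hQ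
    exact Pool.Agent.Results.MP_850839_an.HybridAllDimensions.result D c Q hS hQ.le

/-- **Tubes meeting a `k`-plane inherit the exponents of dimension `k + 1`.**

(1) If the inequality of the problem holds in `ℝ^(k+1)` for all `Q > 1 + c / k`, then it holds in
`ℝ^n`, `n ≥ k + 2`, for all `q > 1 + c / (n - 1)`, for tubes meeting `k`-planes.

(2) It is enough to know it in `ℝ^(k+1)`, `k ≥ 2`, at the single exponent `1 + c / k` with
arbitrarily small losses; in particular (`c = 1`) the Kakeya maximal conjecture in `ℝ^(k+1)` implies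
the full range `q > n / (n - 1)` of the problem, in every `ℝ^n`, for tubes meeting `k`-planes.

(3) Unconditionally, for `k ≥ 2`, the inequality holds for `q > 1 + c / (n - 1)` for every known
slope `c` of `ℝ^(k+1)`.

(4) For example, for tubes meeting `2`-planes in `ℝ^n`, `n ≥ 4`, it holds for all
`q > 1 + 4 / (3 (n - 1))`. -/
theorem result :
    (∀ k n : ℕ, 1 ≤ k → k + 2 ≤ n → ∀ c : ℝ, 1 ≤ c → (∀ Q : ℝ, 1 + c / k < Q → Tubes (k + 1) Q) →
      ∀ q : ℝ, 1 + c / ((n : ℝ) - 1) < q → TubesNearPlanes k n q) ∧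
    (∀ k n : ℕ, 2 ≤ k → k + 2 ≤ n → ∀ c : ℝ, 1 ≤ c → TubesLoss (k + 1) (1 + c / k) →
      ∀ q : ℝ, 1 + c / ((n : ℝ) - 1) < q → TubesNearPlanes k n q) ∧
    (∀ k n : ℕ, k + 2 ≤ n → ∀ c : ℝ, KnownSlope (k + 1) c →
      ∀ q : ℝ, 1 + c / ((n : ℝ) - 1) < q → TubesNearPlanes k n q) ∧
    (∀ n : ℕ, 4 ≤ n → ∀ q : ℝ, 1 + 4 / (3 * ((n : ℝ) - 1)) < q → TubesNearPlanes 2 n q) := by
  have h3 : ∀ k n : ℕ, k + 2 ≤ n → ∀ c : ℝ, KnownSlope (k + 1) c →
      ∀ q : ℝ, 1 + c / ((n : ℝ) - 1) < q → TubesNearPlanes k n q := by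
    intro k n hn c hc q hq
    obtain ⟨h1, h2, h3⟩ := known hc
    have e1 : (((k + 1 : ℕ) : ℝ) - 1) = k := by push_cast; ring
    rw [e1] at h3
    exact transfer (by omega) hn h2 h3 hq
  refine ⟨fun k n hk hn c hc hT q hq => transfer hk hn hc hT hq, ?_, h3, ?_⟩
  · intro k n hk hn c hc hT q hq
    have hk0 : (0:ℝ) < k := by
      have : 0 < k := by omega
      exact_mod_cast this
    refine transfer (by omega) hn hc (fun Q hQ => ?_) hq
    refine (Pool.Agent.Results.MP_850839_an.LossRemoval.result (k + 1) (by omega)).1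
      (1 + c / k) Q ?_ hQ hT
    have e1 : (((k + 1 : ℕ) : ℝ) - 1) = k := by push_cast; ring
    rw [e1]
    push_cast
    have e2 : ((k:ℝ) + 1) / k = 1 + 1 / k := by field_simp
    rw [e2]
    gcongr
  · intro n hn q hq
    have hn4 : (4:ℝ) ≤ n := by exact_mod_cast hn
    have hn1 : (0:ℝ) < (n:ℝ) - 1 := by linarith
    refine h3 2 n hn (4 / 3) (Or.inl ⟨by norm_num, by norm_num⟩) q ?_
    refine lt_of_le_of_lt (le_of_eq ?_) hq
    congr 1
    field_simp

end Pool.Agent.Results.MP_850839_an.TubesMeetingPlanes
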